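import Mathlib

set_option autoImplicit false

namespace Pool.Agent.Lib.MP_e0197a_co

open Finset RealInnerProductSpace

abbrev E3 := EuclideanSpace ℝ (Fin 3)

def cross (a b : E3) : E3 :=
  !₂[a 1 * b 2 - a 2 * b 1, a 2 * b 0 - a 0 * b 2, a 0 * b 1 - a 1 * b 0]

@[simp] lemma cross_0 (a b : E3) : cross a b 0 = a 1 * b 2 - a 2 * b 1 := rfl
@[simp] lemma cross_1 (a b : E3) : cross a b 1 = a 2 * b 0 - a 0 * b 2 := rfl
@[simp] lemma cross_2 (a b : E3) : cross a b 2 = a 0 * b 1 - a 1 * b 0 := rfl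

lemma inner3 (a b : E3) : ⟪a, b⟫ = a 0 * b 0 + a 1 * b 1 + a 2 * b 2 := by
  simp [PiLp.inner_apply, Fin.sum_univ_three]; ring

lemma ext3 {a b : E3} (h0 : a 0 = b 0) (h1 : a 1 = b 1) (h2 : a 2 = b 2) : a = b := by
  ext i; fin_cases i; exacts [h0, h1, h2]

def det3 (a b c : E3) : ℝ :=
  (a 1 * b 2 - a 2 * b 1) * c 0 + (a 2 * b 0 - a 0 * b 2) * c 1 + (a 0 * b 1 - a 1 * b 0) * c 2

lemma inner_cross (a b c : E3) : ⟪cross a b, c⟫ = det3 a b c := by
  rw [inner3]; simp [det3]

lemma det3_rot (a b c : E3) : det3 a b c = det3 b c a := by unfold det3; ring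
lemma det3_swap (a b c : E3) : det3 a b c = - det3 a c b := by unfold det3; ring
lemma det3_swap12 (a b c : E3) : det3 a b c = - det3 b a c := by unfold det3; ring
lemma det3_self13 (a b : E3) : det3 a b a = 0 := by unfold det3; ring
lemma det3_self23 (a b : E3) : det3 a b b = 0 := by unfold det3; ring
lemma det3_self12 (a b : E3) : det3 a a b = 0 := by unfold det3; ring

/-- The linear relation between four vectors, tested against a fifth one. -/
lemma four_vec (n a b c d : E3) :
    det3 b c d * ⟪n, a⟫ - det3 a c d * ⟪n, b⟫ + det3 a b d * ⟪n, c⟫ - det3 a b c * ⟪n, d⟫ = 0 := by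
  simp only [inner3, det3]; ring

lemma inner_self_pos' {a : E3} (h : a ≠ 0) : 0 < ⟪a, a⟫ := real_inner_self_pos.2 h

lemma cross_add (a b c : E3) : cross a (b + c) = cross a b + cross a c := by
  apply ext3 <;> simp <;> ring

lemma cross_sub (a b c : E3) : cross a (b - c) = cross a b - cross a c := by
  apply ext3 <;> simp <;> ring

lemma cross_smul (a b : E3) (r : ℝ) : cross a (r • b) = r • cross a b := by
  apply ext3 <;> simp <;> ring

lemma sub_cross (a b c : E3) : cross (a - b) c = cross a c - cross b c := by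
  apply ext3 <;> simp <;> ring

/-- A vector whose cross product with `e` vanishes is parallel to `e`. -/
lemma parallel_of_cross {a e : E3} (he : e ≠ 0) (h : cross a e = 0) : ∃ r : ℝ, a = r • e := by
  have hp := inner_self_pos' he
  have h0 : cross a e 0 = 0 := by rw [h]; rfl
  have h1 : cross a e 1 = 0 := by rw [h]; rfl
  have h2 : cross a e 2 = 0 := by rw [h]; rfl
  simp only [cross_0, cross_1, cross_2] at h0 h1 h2
  refine ⟨⟪a, e⟫ / ⟪e, e⟫, ?_⟩
  apply ext3 <;> simp only [PiLp.smul_apply, smul_eq_mul] <;>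
    rw [div_mul_eq_mul_div, eq_div_iff hp.ne'] <;> simp only [inner3]
  · linear_combination (e 1) * h2 - (e 2) * h1
  · linear_combination (e 2) * h0 - (e 0) * h2
  · linear_combination (e 0) * h1 - (e 1) * h0

/-- Cramer's rule in the basis `u, v, u × v`. -/
lemma cramer3 (u v x : E3) : ⟪cross u v, cross u v⟫ • x =
    det3 x v (cross u v) • u + det3 u x (cross u v) • v + det3 u v x • cross u v := by
  apply ext3 <;> simp only [inner3, det3, PiLp.smul_apply, PiLp.add_apply, smul_eq_mul, cross_0,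
    cross_1, cross_2] <;> ring

lemma eq_zero_of_orth {u v z : E3} (h : cross u v ≠ 0) (h1 : ⟪z, u⟫ = 0) (h2 : ⟪z, v⟫ = 0)
    (h3 : ⟪z, cross u v⟫ = 0) : z = 0 := by
  have := congrArg (fun y => ⟪z, y⟫) (cramer3 u v z)
  simp only [inner_add_right, inner_smul_right, h1, h2, h3, mul_zero, add_zero] at this
  rcases mul_eq_zero.1 this with h | h
  · exact absurd h (inner_self_pos' ‹_›).ne'
  · exact inner_self_eq_zero.1 h

/-- A vector orthogonal to `u` and `v` is parallel to their cross product. -/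
lemma parallel_cross {u v z : E3} (h : cross u v ≠ 0) (h1 : ⟪z, u⟫ = 0) (h2 : ⟪z, v⟫ = 0) :
    ∃ r : ℝ, z = r • cross u v := by
  apply parallel_of_cross h
  rw [inner3] at h1 h2
  apply ext3 <;> simp
  · linear_combination (u 0) * h2 - (v 0) * h1
  · linear_combination (u 1) * h2 - (v 1) * h1
  · linear_combination (u 2) * h2 - (v 2) * h1

lemma exists_omega {u v p r : E3} (h : cross u v ≠ 0) (h1 : ⟪u, p⟫ = 0) (h2 : ⟪v, r⟫ = 0)
    (h3 : ⟪u, r⟫ + ⟪v, p⟫ = 0) : ∃ w : E3, cross w u = p ∧ cross w v = r := by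
  have hp := inner_self_pos' h
  set n := cross u v with hn
  refine ⟨(⟪n, n⟫)⁻¹ • (⟪r, n⟫ • u - ⟪p, n⟫ • v + ⟪p, v⟫ • n), ?_, ?_⟩
  · rw [← sub_eq_zero]
    apply eq_zero_of_orth h <;> rw [inner_sub_left, inner_cross, sub_eq_zero]
    · rw [det3_self23, real_inner_comm, h1]
    · simp only [det3, PiLp.smul_apply, PiLp.add_apply, PiLp.sub_apply, smul_eq_mul]
      field_simp
      simp only [inner3, hn, cross_0, cross_1, cross_2]; ring
    · simp only [det3, PiLp.smul_apply, PiLp.add_apply, PiLp.sub_apply, smul_eq_mul]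
      field_simp
      simp only [inner3, hn, cross_0, cross_1, cross_2]; ring
  · rw [← sub_eq_zero]
    apply eq_zero_of_orth h <;> rw [inner_sub_left, inner_cross, sub_eq_zero]
    · have e : ⟪r, u⟫ = - ⟪p, v⟫ := by
        rw [real_inner_comm u r, real_inner_comm v p]; linarith
      rw [e]
      simp only [det3, PiLp.smul_apply, PiLp.add_apply, PiLp.sub_apply, smul_eq_mul]
      field_simp
      simp only [inner3, hn, cross_0, cross_1, cross_2]; ring
    · rw [det3_self23, real_inner_comm, h2]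
    · simp only [det3, PiLp.smul_apply, PiLp.add_apply, PiLp.sub_apply, smul_eq_mul]
      field_simp
      simp only [inner3, hn, cross_0, cross_1, cross_2]; ring

lemma exists_orth (a b : E3) : ∃ n : E3, n ≠ 0 ∧ ⟪n, a⟫ = 0 ∧ ⟪n, b⟫ = 0 := by
  by_cases h : cross a b = 0
  · have key : ∀ e : E3, ∃ n : E3, n ≠ 0 ∧ ⟪n, e⟫ = 0 := by
      intro e
      by_cases h0 : e 0 = 0
      · refine ⟨!₂[1, 0, 0], fun hh => ?_, by simp [inner3, h0]⟩
        have := congrArg (fun y : E3 => y 0) hh
        simp at this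
      · refine ⟨!₂[e 1, - e 0, 0], fun hh => ?_, by simp [inner3]; ring⟩
        have := congrArg (fun y : E3 => y 1) hh
        simp at this
        exact h0 this
    by_cases hb : b = 0
    · obtain ⟨n, hn, hna⟩ := key a
      exact ⟨n, hn, hna, by simp [hb]⟩
    · obtain ⟨r, rfl⟩ := parallel_of_cross hb h
      obtain ⟨n, hn, hna⟩ := key b
      exact ⟨n, hn, by simp [inner_smul_right, hna], hna⟩
  · exact ⟨cross a b, h, by rw [inner_cross, det3_self13], by rw [inner_cross, det3_self23]⟩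

lemma exists_inner_of_dual (f : StrongDual ℝ E3) : ∃ n : E3, ∀ x, f x = ⟪n, x⟫ :=
  ⟨(InnerProductSpace.toDual ℝ E3).symm f, fun x => by simp⟩

/-- Abel summation: a closed polygon with increasing slopes has nonpositive signed area. -/
lemma abel_area (X Y m : ℕ → ℝ) (k : ℕ) (hX0 : X 0 = 0) (hXk : X k = 0)
    (hm : ∀ i, i + 1 < k → m i < m (i + 1))
    (hY : ∀ i < k, Y (i + 1) - Y i = m i * (X (i + 1) - X i)) :
    ∑ i ∈ range k, (X i * Y (i + 1) - X (i + 1) * Y i) ≤ 0 ∧
      (∑ i ∈ range k, (X i * Y (i + 1) - X (i + 1) * Y i) = 0 → ∀ i ≤ k, X i = 0) := by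
  have key : ∀ j, j + 1 ≤ k → ∑ i ∈ range (j + 1), (X i * Y (i + 1) - X (i + 1) * Y i) =
      m j * X (j + 1) ^ 2 - X (j + 1) * Y (j + 1) -
        ∑ i ∈ range j, (m (i + 1) - m i) * X (i + 1) ^ 2 := by
    intro j
    induction j with
    | zero =>
      intro h
      have := hY 0 (by omega)
      simp only [zero_add, sum_range_one, range_zero, sum_empty, hX0] at this ⊢
      linear_combination (X 1) * this
    | succ j ih =>
      intro h
      rw [sum_range_succ, ih (by omega), sum_range_succ]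
      have := hY (j + 1) (by omega)
      linear_combination (X (j + 1) + X (j + 1 + 1)) * this
  rcases k with _ | j
  · simp [hX0]
  rw [key j le_rfl, hXk]
  have hnn : ∀ i ∈ range j, 0 ≤ (m (i + 1) - m i) * X (i + 1) ^ 2 := fun i hi =>
    mul_nonneg (sub_pos.2 (hm i (by have := mem_range.1 hi; omega))).le (sq_nonneg _)
  refine ⟨by have := sum_nonneg hnn; linarith, fun h i hi => ?_⟩
  have h0 : ∑ i ∈ range j, (m (i + 1) - m i) * X (i + 1) ^ 2 = 0 := by linarith
  rw [sum_eq_zero_iff_of_nonneg hnn] at h0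
  rcases i with _ | i
  · exact hX0
  rcases (by omega : i = j ∨ i < j) with rfl | hij
  · exact hXk
  · have := h0 i (mem_range.2 hij)
    rcases mul_eq_zero.1 this with h | h
    · exact absurd h (sub_pos.2 (hm i (by omega))).ne'
    · exact pow_eq_zero_iff (two_ne_zero) |>.1 h

lemma exists_enum {α : Type*} [DecidableEq α] (x0 : α) (s : Finset α) (m : α → ℝ)
    (hm : Set.InjOn m s) :
    ∃ (k : ℕ) (w : ℕ → α), (∀ i < k, w i ∈ s) ∧ (∀ y ∈ s, ∃ i < k, w i = y) ∧
      ∀ i j, i < j → j < k → m (w i) < m (w j) := by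
  classical
  let f := (s.image m).orderEmbOfFin rfl
  have hf : ∀ i, ∃ y ∈ s, m y = f i := fun i =>
    mem_image.1 ((s.image m).orderEmbOfFin_mem rfl i)
  choose g hg1 hg2 using hf
  refine ⟨(s.image m).card, fun i => if h : i < (s.image m).card then g ⟨i, h⟩ else x0,
    fun i hi => by simp only [dif_pos hi]; exact hg1 _, fun y hy => ?_, fun i j hij hj => ?_⟩
  · have : m y ∈ Set.range f := by
      rw [Finset.range_orderEmbOfFin]; exact mem_coe.2 (mem_image_of_mem m hy)
    obtain ⟨i, hi⟩ := this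
    refine ⟨i, i.2, ?_⟩
    simp only [dif_pos i.2]
    exact hm (hg1 _) hy (by rw [hg2, ← hi])
  · simp only [dif_pos hj, dif_pos (hij.trans hj), hg2]
    exact f.strictMono hij

end Pool.Agent.Lib.MP_e0197a_co
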