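import Mathlib
import Pool.Agent.Lib.MP_e0197a_co.Vec

set_option autoImplicit false

namespace Pool.Agent.Lib.MP_e0197a_co

open Finset RealInnerProductSpace

lemma hull_extreme (S : Finset E3) :
    convexHull ℝ ((convexHull ℝ (S : Set E3)).extremePoints ℝ) = convexHull ℝ (S : Set E3) := by
  have h := closure_convexHull_extremePoints (S.finite_toSet.isCompact_convexHull ℝ)
    (convex_convexHull ℝ (S : Set E3))
  have hfin : ((convexHull ℝ (S : Set E3)).extremePoints ℝ).Finite :=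
    S.finite_toSet.subset extremePoints_convexHull_subset
  rwa [(hfin.isClosed_convexHull ℝ).closure_eq] at h

lemma extreme_not_mem (S : Finset E3) {z : E3}
    (hz : z ∈ (convexHull ℝ (S : Set E3)).extremePoints ℝ) (T : Set E3) (hT : T ⊆ S)
    (hzT : z ∉ T) : z ∉ convexHull ℝ T := by
  rw [(convex_convexHull ℝ _).mem_extremePoints_iff_mem_sdiff_convexHull_sdiff] at hz
  refine fun h => hz.2 (convexHull_mono ?_ h)
  intro y hy
  exact ⟨subset_convexHull ℝ _ (hT hy), fun e => hzT (e ▸ hy)⟩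

lemma sep_point {T : Set E3} (hT : T.Finite) {z : E3} (hz : z ∉ convexHull ℝ T) :
    ∃ n : E3, ∀ y ∈ T, ⟪n, y⟫ < ⟪n, z⟫ := by
  obtain ⟨f, u, h1, h2⟩ := geometric_hahn_banach_closed_point (convex_convexHull ℝ T)
    (hT.isClosed_convexHull ℝ) hz
  obtain ⟨n, hn⟩ := exists_inner_of_dual f
  refine ⟨n, fun y hy => ?_⟩
  rw [← hn, ← hn]
  exact (h1 y (subset_convexHull ℝ _ hy)).trans h2

/-- The vertex set of a three-dimensional polytope. -/
structure Good (V : Finset E3) : Prop where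
  cp : ∀ v ∈ V, ∀ T : Set E3, T ⊆ V → v ∉ T → v ∉ convexHull ℝ T
  full : ∀ n : E3, (∀ x ∈ V, ∀ y ∈ V, ⟪n, x - y⟫ = 0) → n = 0

def Adj (V : Finset E3) (v w : E3) : Prop :=
  v ∈ V ∧ w ∈ V ∧ v ≠ w ∧
    ∃ n : E3, ⟪n, w - v⟫ = 0 ∧ ∀ x ∈ V, x ≠ v → x ≠ w → ⟪n, x - v⟫ < 0

lemma Adj.symm {V : Finset E3} {v w : E3} (h : Adj V v w) : Adj V w v := by
  obtain ⟨hv, hw, hne, n, h1, h2⟩ := h
  refine ⟨hw, hv, hne.symm, n, ?_, fun x hx hxw hxv => ?_⟩
  · rw [inner_sub_right] at h1 ⊢; linarith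
  · have := h2 x hx hxv hxw
    rw [inner_sub_right] at h1 this ⊢; linarith

lemma Good.sep {V : Finset E3} (hV : Good V) {v : E3} (hv : v ∈ V) :
    ∃ l : E3, ∀ x ∈ V, x ≠ v → 0 < ⟪l, x - v⟫ := by
  obtain ⟨n, hn⟩ := sep_point (V.finite_toSet.subset (Set.sdiff_subset (t := {v})))
    (hV.cp v hv _ Set.sdiff_subset (by simp))
  refine ⟨-n, fun x hx hxv => ?_⟩
  have := hn x ⟨hx, hxv⟩
  rw [inner_neg_left, inner_sub_right]; linarith

lemma Good.not_between {V : Finset E3} (hV : Good V) {v w y : E3} (hv : v ∈ V) (hw : w ∈ V)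
    (hy : y ∈ V) (hyv : y ≠ v) (hyw : y ≠ w) {r : ℝ} (h0 : 0 ≤ r) (h1 : r ≤ 1)
    (h : y - v = r • (w - v)) : False := by
  refine hV.cp y hy {v, w} (by intro z hz; rcases hz with rfl | rfl <;> simpa)
    (by simp [hyv, hyw]) ?_
  rw [convexHull_pair]
  refine ⟨1 - r, r, by linarith, h0, by ring, ?_⟩
  rw [sub_eq_iff_eq_add.1 h]
  module

/-- The directions to the neighbours generate the tangent cone at a vertex. -/
lemma Good.cone_gen {V : Finset E3} (hV : Good V) {v : E3} (hv : v ∈ V) (K : Set E3)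
    (hK : Convex ℝ K) (hpos : ∀ u ∈ K, ∀ c : ℝ, 0 < c → c • u ∈ K)
    (hN : ∀ w, Adj V v w → w - v ∈ K) : ∀ x ∈ V, x ≠ v → x - v ∈ K := by
  classical
  obtain ⟨l, hl⟩ := hV.sep hv
  let pr : E3 → E3 := fun x => (⟪l, x - v⟫)⁻¹ • (x - v)
  let S := (V.erase v).image pr
  have hback : ∀ x ∈ V, x ≠ v → x - v = ⟪l, x - v⟫ • pr x := fun x hx hxv => by
    simp only [pr]
    rw [smul_smul, mul_inv_cancel₀ (hl x hx hxv).ne', one_smul]
  have hinj : ∀ y ∈ V, y ≠ v → ∀ w ∈ V, w ≠ v → pr y = pr w → y = w := by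
    have aux : ∀ y ∈ V, y ≠ v → ∀ w ∈ V, w ≠ v → pr y = pr w → ⟪l, y - v⟫ ≤ ⟪l, w - v⟫ →
        y = w := by
      intro y hy hyv w hw hwv h hle
      by_contra hne
      have h1 := hl y hy hyv
      have h2 := hl w hw hwv
      refine hV.not_between hv hw hy hyv hne (r := ⟪l, y - v⟫ / ⟪l, w - v⟫) (by positivity)
        ((div_le_one h2).2 hle) ?_
      conv_lhs => rw [hback y hy hyv, h]
      simp only [pr]
      rw [smul_smul, div_eq_mul_inv]
    intro y hy hyv w hw hwv h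
    rcases le_total ⟪l, y - v⟫ ⟪l, w - v⟫ with hle | hle
    · exact aux y hy hyv w hw hwv h hle
    · exact (aux w hw hwv y hy hyv h.symm hle).symm
  have hext : (convexHull ℝ (S : Set E3)).extremePoints ℝ ⊆ K := by
    intro z hz
    have hzS : z ∈ S := extremePoints_convexHull_subset hz
    obtain ⟨w, hw, rfl⟩ := mem_image.1 hzS
    obtain ⟨hwv, hwV⟩ := mem_erase.1 hw
    obtain ⟨n, hn⟩ := sep_point (S.finite_toSet.subset (Set.sdiff_subset (t := {pr w})))
      (extreme_not_mem S hz _ Set.sdiff_subset (by simp))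
    have key : ∀ x ∈ V, x ≠ v → ⟪n - ⟪n, pr w⟫ • l, x - v⟫ =
        ⟪l, x - v⟫ * (⟪n, pr x⟫ - ⟪n, pr w⟫) := by
      intro x hx hxv
      rw [inner_sub_left, real_inner_smul_left]
      conv_lhs => rw [hback x hx hxv, inner_smul_right, ← hback x hx hxv]
      ring
    have hadj : Adj V v w := by
      refine ⟨hv, hwV, hwv.symm, n - ⟪n, pr w⟫ • l, by rw [key w hwV hwv]; ring,
        fun x hx hxv hxw => ?_⟩
      rw [key x hx hxv]
      have := hn (pr x) ⟨mem_coe.2 (mem_image_of_mem pr (mem_erase.2 ⟨hxv, hx⟩)),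
        fun e => hxw (hinj x hx hxv w hwV hwv e)⟩
      exact mul_neg_of_pos_of_neg (hl x hx hxv) (by linarith)
    exact hpos _ (hN w hadj) _ (inv_pos.2 (hl w hwV hwv))
  intro x hx hxv
  have h1 : pr x ∈ convexHull ℝ (S : Set E3) :=
    subset_convexHull ℝ _ (mem_coe.2 (mem_image_of_mem pr (mem_erase.2 ⟨hxv, hx⟩)))
  rw [← hull_extreme] at h1
  rw [hback x hx hxv]
  exact hpos _ (convexHull_min hext hK h1) _ (hl x hx hxv)

lemma Good.cone_le {V : Finset E3} (hV : Good V) {v : E3} (hv : v ∈ V) (n : E3)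
    (hN : ∀ w, Adj V v w → ⟪n, w - v⟫ ≤ 0) : ∀ x ∈ V, ⟪n, x - v⟫ ≤ 0 := by
  intro x hx
  by_cases hxv : x = v
  · simp [hxv]
  refine hV.cone_gen hv {u | ⟪n, u⟫ ≤ 0} ?_ ?_ hN x hx hxv
  · exact convex_halfSpace_le (f := fun u => ⟪n, u⟫) (innerSL ℝ n).toLinearMap.isLinear 0
  · intro u hu c hc
    simp only [Set.mem_ofPred_eq, inner_smul_right] at hu ⊢
    exact mul_nonpos_of_nonneg_of_nonpos hc.le hu

lemma Good.cone_lt {V : Finset E3} (hV : Good V) {v : E3} (hv : v ∈ V) (n : E3)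
    (hN : ∀ w, Adj V v w → ⟪n, w - v⟫ < 0) : ∀ x ∈ V, x ≠ v → ⟪n, x - v⟫ < 0 := by
  intro x hx hxv
  refine hV.cone_gen hv {u | ⟪n, u⟫ < 0} ?_ ?_ hN x hx hxv
  · exact convex_halfSpace_lt (f := fun u => ⟪n, u⟫) (innerSL ℝ n).toLinearMap.isLinear 0
  · intro u hu c hc
    simp only [Set.mem_ofPred_eq, inner_smul_right] at hu ⊢
    exact mul_neg_of_pos_of_neg hc hu

lemma Good.cone_lex {V : Finset E3} (hV : Good V) {v : E3} (hv : v ∈ V) (l n : E3)
    (hN : ∀ w, Adj V v w → ⟪l, w - v⟫ < 0 ∨ (⟪l, w - v⟫ = 0 ∧ ⟪n, w - v⟫ = 0)) :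
    ∀ x ∈ V, ⟪l, x - v⟫ = 0 → ⟪n, x - v⟫ = 0 := by
  intro x hx h0
  by_cases hxv : x = v
  · simp [hxv]
  have := hV.cone_gen hv {u | ⟪l, u⟫ < 0 ∨ (⟪l, u⟫ = 0 ∧ ⟪n, u⟫ = 0)} ?_ ?_ hN x hx hxv
  · rcases this with h | h
    · linarith
    · exact h.2
  · intro a ha b hb s t hs ht hst
    simp only [Set.mem_ofPred_eq, inner_add_right, inner_smul_right] at ha hb ⊢
    rcases hs.eq_or_lt with rfl | hs'
    · have : t = 1 := by linarith
      subst this; simpa using hb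
    rcases ht.eq_or_lt with rfl | ht'
    · have : s = 1 := by linarith
      subst this; simpa using ha
    rcases ha with ha | ha <;> rcases hb with hb | hb
    · left; nlinarith
    · left; rw [hb.1]; nlinarith
    · left; rw [ha.1]; nlinarith
    · right; simp [ha.1, ha.2, hb.1, hb.2]
  · intro u hu c hc
    simp only [Set.mem_ofPred_eq, inner_smul_right] at hu ⊢
    rcases hu with h | h
    · exact Or.inl (mul_neg_of_pos_of_neg hc h)
    · right; simp [h.1, h.2]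

/-- The graph of the polytope is connected. -/
lemma Good.connected {V : Finset E3} (hV : Good V) {o : E3} (ho : o ∈ V) (Pr : E3 → Prop)
    (h0 : Pr o) (hstep : ∀ v w, Adj V v w → Pr w → Pr v) : ∀ v ∈ V, Pr v := by
  classical
  obtain ⟨l, hl⟩ := hV.sep ho
  by_contra hcon
  push Not at hcon
  obtain ⟨v0, hv0, hv0'⟩ := hcon
  obtain ⟨v, hv, hmin⟩ := exists_min_image (V.filter fun x => ¬ Pr x) (fun x => ⟪l, x⟫)
    ⟨v0, mem_filter.2 ⟨hv0, hv0'⟩⟩
  obtain ⟨hvV, hvP⟩ := mem_filter.1 hv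
  have hvo : v ≠ o := fun e => hvP (e ▸ h0)
  have h1 := hV.cone_le hvV (-l) (fun w hw => by
    have := hmin w (mem_filter.2 ⟨hw.2.1, fun hp => hvP (hstep v w hw hp)⟩)
    rw [inner_neg_left, inner_sub_right]; linarith) o ho
  have h2 := hl v hvV hvo
  rw [inner_neg_left, inner_sub_right] at h1
  rw [inner_sub_right] at h2
  linarith

lemma Good.exists_ne {V : Finset E3} (hV : Good V) (v : E3) : ∃ x ∈ V, x ≠ v := by
  by_contra h
  push Not at h
  obtain ⟨n, hn, -⟩ := exists_orth 0 0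
  exact hn (hV.full n fun x hx y hy => by simp [h x hx, h y hy])

/-- Two vectors never span all neighbour directions. -/
lemma Good.not_two {V : Finset E3} (hV : Good V) {v : E3} (hv : v ∈ V) (a b : E3) :
    ∃ w, Adj V v w ∧ w ≠ a ∧ w ≠ b := by
  by_contra h
  push Not at h
  obtain ⟨n, hn, h1, h2⟩ := exists_orth (a - v) (b - v)
  have h0 : ∀ w, Adj V v w → ⟪n, w - v⟫ = 0 := fun w hw => by
    by_cases e : w = a
    · rw [e, h1]
    · rw [h w hw e, h2]
  have e1 := hV.cone_le hv n fun w hw => (h0 w hw).le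
  have e2 := hV.cone_le hv (-n) fun w hw => by rw [inner_neg_left, h0 w hw]; simp
  refine hn (hV.full n fun x hx y hy => ?_)
  have := e1 x hx; have := e1 y hy; have := e2 x hx; have := e2 y hy
  simp only [inner_neg_left, inner_sub_right] at *
  linarith

end Pool.Agent.Lib.MP_e0197a_co
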