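import Mathlib
import Pool.Agent.Lib.MP_e0197a_co.Cone

set_option autoImplicit false

namespace Pool.Agent.Lib.MP_e0197a_co

open Finset RealInnerProductSpace

lemma two_indep {V : Finset E3} {v a b : E3} (ha : Adj V v a) (hb : Adj V v b) (hab : a ≠ b) :
    cross (a - v) (b - v) ≠ 0 := by
  intro h
  obtain ⟨r, hr⟩ := parallel_of_cross (sub_ne_zero.2 hb.2.2.1.symm) h
  obtain ⟨-, -, -, n, h1, h2⟩ := hb
  have := h2 a ha.2.1 ha.2.2.1.symm hab
  rw [hr, inner_smul_right, h1] at this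
  simp at this

lemma three_indep {V : Finset E3} {v a b c : E3} (ha : Adj V v a) (hb : Adj V v b)
    (hc : Adj V v c) (hab : a ≠ b) (hac : a ≠ c) (hbc : b ≠ c) :
    det3 (a - v) (b - v) (c - v) ≠ 0 := by
  intro h
  have h2 := inner_self_pos' (two_indep ha hb hab)
  set d := cross (a - v) (b - v) with hd
  have hg : 0 < det3 (a - v) (b - v) d := by rwa [← inner_cross]
  obtain ⟨na, a0, a1⟩ := ha.2.2.2
  obtain ⟨nb, b0, b1⟩ := hb.2.2.2
  obtain ⟨nc, c0, c1⟩ := hc.2.2.2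
  have ab := a1 b hb.2.1 hb.2.2.1.symm hab.symm
  have ac := a1 c hc.2.1 hc.2.2.1.symm hac.symm
  have ba := b1 a ha.2.1 ha.2.2.1.symm hab
  have bc := b1 c hc.2.1 hc.2.2.1.symm hbc.symm
  have ca := c1 a ha.2.1 ha.2.2.1.symm hac
  have cb := c1 b hb.2.1 hb.2.2.1.symm hbc
  have e1 := four_vec na (a - v) (b - v) (c - v) d
  have e2 := four_vec nb (a - v) (b - v) (c - v) d
  have e3 := four_vec nc (a - v) (b - v) (c - v) d
  rw [h] at e1 e2 e3
  rw [a0] at e1
  rw [b0] at e2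
  rw [c0] at e3
  have f1 : 0 < det3 (a - v) (c - v) d := by nlinarith
  have f2 : det3 (b - v) (c - v) d < 0 := by nlinarith
  nlinarith

/-- The neighbours of `v` in cyclic order, starting from a given one. -/
structure Star (V : Finset E3) (v : E3) (k : ℕ) (c : ℕ → E3) : Prop where
  two : 2 ≤ k
  adj : ∀ i ≤ k, Adj V v (c i)
  surj : ∀ w, Adj V v w → ∃ i ≤ k, c i = w
  pos : ∀ i j l, i < j → j < l → l ≤ k → 0 < det3 (c i - v) (c j - v) (c l - v)

lemma slope_id {n e y z : E3} (h : ⟪n, e⟫ = 0) :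
    ⟪n, n⟫ * det3 e y z = ⟪n, y⟫ * det3 e n z - ⟪n, z⟫ * det3 e n y := by
  have := four_vec n e y z n
  rw [h, det3_swap e z n, det3_swap e y n] at this
  linarith

lemma Good.star {V : Finset E3} (hV : Good V) {v w1 : E3} (h1 : Adj V v w1) :
    ∃ k c, Star V v k c ∧ c 0 = w1 := by
  classical
  obtain ⟨n1, hn0, hn1⟩ := h1.2.2.2
  have hn : ⟪-n1, w1 - v⟫ = 0 := by rw [inner_neg_left, hn0, neg_zero]
  set n := -n1 with hndef
  have hs : ∀ y, Adj V v y → y ≠ w1 → 0 < ⟪n, y - v⟫ := fun y hy hne => by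
    have := hn1 y hy.2.1 hy.2.2.1.symm hne
    rw [hndef, inner_neg_left]; linarith
  let m : E3 → ℝ := fun y => det3 (w1 - v) n (y - v) / ⟪n, y - v⟫
  have hid : ∀ y z, Adj V v y → y ≠ w1 → Adj V v z → z ≠ w1 →
      ⟪n, n⟫ * det3 (w1 - v) (y - v) (z - v) = ⟪n, y - v⟫ * ⟪n, z - v⟫ * (m z - m y) := by
    intro y z hy hy' hz hz'
    have e1 := hs y hy hy'
    have e2 := hs z hz hz'
    rw [slope_id hn]
    simp only [m]
    field_simp
  obtain ⟨y0, hy0, hy0', -⟩ := hV.not_two h1.1 w1 w1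
  have hnn : 0 < ⟪n, n⟫ := inner_self_pos' fun h => by
    have := hs y0 hy0 hy0'
    rw [h] at this; simp at this
  let N := V.filter fun y => Adj V v y ∧ y ≠ w1
  have hN : ∀ y, y ∈ N ↔ Adj V v y ∧ y ≠ w1 := fun y => by
    simp only [N, mem_filter]
    exact ⟨fun h => h.2, fun h => ⟨h.1.2.1, h⟩⟩
  obtain ⟨k, w, hw1, hw2, hw3⟩ := exists_enum v N m (by
    intro y hy z hz hyz
    obtain ⟨hy1, hy2⟩ := (hN y).1 hy
    obtain ⟨hz1, hz2⟩ := (hN z).1 hz
    by_contra hne
    have := hid y z hy1 hy2 hz1 hz2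
    rw [hyz, sub_self, mul_zero] at this
    exact three_indep h1 hy1 hz1 hy2.symm hz2.symm hne
      ((mul_eq_zero.1 this).resolve_left hnn.ne'))
  have hw1' : ∀ i < k, Adj V v (w i) ∧ w i ≠ w1 := fun i hi => (hN _).1 (hw1 i hi)
  have hpos0 : ∀ i j, i < j → j < k → 0 < det3 (w1 - v) (w i - v) (w j - v) := by
    intro i j hij hj
    obtain ⟨a1, a2⟩ := hw1' i (hij.trans hj)
    obtain ⟨b1, b2⟩ := hw1' j hj
    have e := hid _ _ a1 a2 b1 b2
    have : 0 < ⟪n, w i - v⟫ * ⟪n, w j - v⟫ * (m (w j) - m (w i)) :=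
      mul_pos (mul_pos (hs _ a1 a2) (hs _ b1 b2)) (sub_pos.2 (hw3 i j hij hj))
    rw [← e] at this
    exact (mul_pos_iff_of_pos_left hnn).1 this
  refine ⟨k, fun i => Nat.casesOn i w1 w, ⟨?_, ?_, ?_, ?_⟩, rfl⟩
  · obtain ⟨z0, hz0, hz1, hz2⟩ := hV.not_two h1.1 w1 y0
    obtain ⟨i, hi, rfl⟩ := hw2 y0 ((hN _).2 ⟨hy0, hy0'⟩)
    obtain ⟨j, hj, rfl⟩ := hw2 z0 ((hN _).2 ⟨hz0, hz1⟩)
    have : i ≠ j := fun e => hz2 (by rw [e])
    omega
  · intro i hi
    rcases i with _ | i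
    · exact h1
    · exact (hw1' i (by omega)).1
  · intro y hy
    by_cases e : y = w1
    · exact ⟨0, by omega, e.symm⟩
    · obtain ⟨i, hi, rfl⟩ := hw2 y ((hN _).2 ⟨hy, e⟩)
      exact ⟨i + 1, by omega, rfl⟩
  · intro i j l hij hjl hl
    obtain ⟨j, rfl⟩ : ∃ j', j = j' + 1 := ⟨j - 1, by omega⟩
    obtain ⟨l, rfl⟩ : ∃ l', l = l' + 1 := ⟨l - 1, by omega⟩
    rcases i with _ | i
    · exact hpos0 j l (by omega) (by omega)
    · change 0 < det3 (w i - v) (w j - v) (w l - v)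
      have p1 := hpos0 i j (by omega) (by omega)
      have p2 := hpos0 j l (by omega) (by omega)
      obtain ⟨nr, r0, r1⟩ := (hw1' j (by omega)).1.2.2.2
      have hne : ∀ a b, a < b → b < k → w a ≠ w b := fun a b hab hb e => by
        have := hw3 a b hab hb
        rw [e] at this; exact lt_irrefl _ this
      have q1 := r1 w1 h1.2.1 h1.2.2.1.symm (hw1' j (by omega)).2.symm
      have q2 := r1 (w i) (hw1' i (by omega)).1.2.1 (hw1' i (by omega)).1.2.2.1.symm
        (hne i j (by omega) (by omega))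
      have q3 := r1 (w l) (hw1' l (by omega)).1.2.1 (hw1' l (by omega)).1.2.2.1.symm
        (hne j l (by omega) (by omega)).symm
      have e := four_vec nr (w1 - v) (w i - v) (w j - v) (w l - v)
      rw [r0] at e
      nlinarith

lemma Star.inj {V : Finset E3} {v : E3} {k : ℕ} {c : ℕ → E3} (h : Star V v k c) :
    ∀ i j, i < j → j ≤ k → c i ≠ c j := by
  intro i j hij hj e
  have h2 := h.two
  rcases (by omega : j < k ∨ 0 < i ∨ (i = 0 ∧ j = k)) with h1 | h1 | ⟨rfl, rfl⟩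
  · have := h.pos i j k hij h1 le_rfl
    rw [e, det3_self12] at this; exact lt_irrefl _ this
  · have := h.pos 0 i j h1 hij hj
    rw [e, det3_self23] at this; exact lt_irrefl _ this
  · have := h.pos 0 1 j (by omega) (by omega) le_rfl
    rw [e, det3_self13] at this; exact lt_irrefl _ this

/-- The plane through `v, w, x` supports the polytope, with this orientation. -/
def Supp (V : Finset E3) (v w x : E3) : Prop :=
  x ∈ V ∧ (∀ y ∈ V, 0 ≤ det3 (w - v) (x - v) (y - v)) ∧ cross (w - v) (x - v) ≠ 0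

lemma det3_aff (v w x y : E3) : det3 (v - x) (w - x) (y - x) = det3 (w - v) (x - v) (y - v) := by
  simp only [det3, PiLp.sub_apply]; ring

lemma Supp.rot {V : Finset E3} {v w x : E3} (h : Supp V v w x) (hw : w ∈ V) : Supp V x v w := by
  refine ⟨hw, fun y hy => by rw [det3_aff]; exact h.2.1 y hy, fun e => h.2.2 ?_⟩
  rw [← e]
  apply ext3 <;> simp <;> ring

lemma Star.supp_succ {V : Finset E3} (hV : Good V) {v : E3} {k : ℕ} {c : ℕ → E3}
    (h : Star V v k c) {i : ℕ} (hi : i < k) : Supp V v (c i) (c (i + 1)) := by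
  refine ⟨(h.adj _ hi).2.1, fun y hy => ?_,
    two_indep (h.adj _ hi.le) (h.adj _ hi) (h.inj _ _ (by omega) hi)⟩
  have := hV.cone_le (h.adj 0 (by omega)).1 (-cross (c i - v) (c (i + 1) - v)) (fun w hw => by
    obtain ⟨j, hj, rfl⟩ := h.surj w hw
    rw [inner_neg_left, inner_cross, neg_nonpos]
    rcases (by omega : j < i ∨ j = i ∨ j = i + 1 ∨ i + 1 < j) with h1 | rfl | rfl | h1
    · rw [← det3_rot]; exact (h.pos j i (i + 1) h1 (by omega) hi).le
    · rw [det3_self13]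
    · rw [det3_self23]
    · exact (h.pos i (i + 1) j (by omega) h1 hj).le) y hy
  rwa [inner_neg_left, inner_cross, neg_nonpos] at this

lemma Star.supp_last {V : Finset E3} (hV : Good V) {v : E3} {k : ℕ} {c : ℕ → E3}
    (h : Star V v k c) : Supp V v (c k) (c 0) := by
  have h2 := h.two
  refine ⟨(h.adj _ (by omega)).2.1, fun y hy => ?_,
    two_indep (h.adj _ le_rfl) (h.adj _ (by omega)) (h.inj _ _ (by omega) le_rfl).symm⟩
  have := hV.cone_le (h.adj 0 (by omega)).1 (-cross (c k - v) (c 0 - v)) (fun w hw => by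
    obtain ⟨j, hj, rfl⟩ := h.surj w hw
    rw [inner_neg_left, inner_cross, neg_nonpos]
    rcases (by omega : j = 0 ∨ j = k ∨ (0 < j ∧ j < k)) with rfl | rfl | h1
    · rw [det3_self23]
    · rw [det3_self13]
    · rw [det3_rot]; exact (h.pos 0 j k h1.1 h1.2 le_rfl).le) y hy
  rwa [inner_neg_left, inner_cross, neg_nonpos] at this

/-- The points of the polytope on the plane through `v, w, x`. -/
def Fac (V : Finset E3) (v w x : E3) : Set E3 :=
  {y ∈ convexHull ℝ (V : Set E3) | det3 (w - v) (x - v) (y - v) = 0}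

lemma Fac_rot (V : Finset E3) (v w x : E3) : Fac V x v w = Fac V v w x := by
  ext y; simp only [Fac, Set.mem_ofPred_eq]; rw [det3_aff v w x y]

lemma Fac_swap (V : Finset E3) (v w x : E3) : Fac V v x w = Fac V v w x := by
  ext y; simp only [Fac, Set.mem_ofPred_eq, det3_swap12 (x - v), neg_eq_zero]

lemma Supp.unique {V : Finset E3} {v w x x' : E3} (h : Supp V v w x) (h' : Supp V v w x') :
    Fac V v w x = Fac V v w x' := by
  have e1 := h.2.1 x' h'.1
  have e2 := h'.2.1 x h.1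
  rw [det3_swap] at e2
  have e0 : det3 (w - v) (x - v) (x' - v) = 0 := by linarith
  obtain ⟨r, hr⟩ := parallel_cross (z := cross (w - v) (x' - v)) h.2.2
    (by rw [inner_cross, det3_self13]) (by rw [inner_cross, det3_swap, e0, neg_zero])
  have hr0 : r ≠ 0 := fun e => h'.2.2 (by rw [hr, e, zero_smul])
  ext y
  simp only [Fac, Set.mem_ofPred_eq, ← inner_cross, hr, real_inner_smul_left, mul_eq_zero, hr0,
    false_or]

lemma mem_Fac {V : Finset E3} {v w x : E3} (hv : v ∈ V) (hw : w ∈ V) (hx : x ∈ V) :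
    v ∈ Fac V v w x ∧ w ∈ Fac V v w x ∧ x ∈ Fac V v w x :=
  ⟨⟨subset_convexHull ℝ _ hv, by simp [det3]⟩, ⟨subset_convexHull ℝ _ hw, det3_self13 _ _⟩,
    ⟨subset_convexHull ℝ _ hx, det3_self23 _ _⟩⟩

open Classical in
/-- The facet to the left of the directed edge `v w`. -/
noncomputable def Lf (V : Finset E3) (v w : E3) : Set E3 :=
  if h : ∃ x, Supp V v w x then Fac V v w h.choose else ∅

lemma Supp.Lf_eq {V : Finset E3} {v w x : E3} (h : Supp V v w x) : Lf V v w = Fac V v w x := by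
  have h' : ∃ x, Supp V v w x := ⟨x, h⟩
  rw [Lf, dif_pos h']
  exact h'.choose_spec.unique h

end Pool.Agent.Lib.MP_e0197a_co
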