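import Mathlib
import Pool.Agent.Lib.MP_e0197a_co.Star

set_option autoImplicit false

namespace Pool.Agent.Lib.MP_e0197a_co

open Finset RealInnerProductSpace

lemma Star.Lf_succ {V : Finset E3} (hV : Good V) {v : E3} {k : ℕ} {c : ℕ → E3}
    (h : Star V v k c) {i : ℕ} (hi : i < k) : Lf V (c (i + 1)) v = Lf V v (c i) := by
  have s := h.supp_succ hV hi
  rw [s.Lf_eq, (s.rot (h.adj i hi.le).2.1).Lf_eq, Fac_rot]

lemma Star.Lf_last {V : Finset E3} (hV : Good V) {v : E3} {k : ℕ} {c : ℕ → E3}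
    (h : Star V v k c) : Lf V (c 0) v = Lf V v (c k) := by
  have s := h.supp_last hV
  rw [s.Lf_eq, (s.rot (h.adj k le_rfl).2.1).Lf_eq, Fac_rot]

lemma Adj.supp {V : Finset E3} (hV : Good V) {v w : E3} (h : Adj V v w) : ∃ x, Supp V v w x := by
  obtain ⟨k, c, hs, rfl⟩ := hV.star h
  exact ⟨_, hs.supp_succ hV (i := 0) (by have := hs.two; omega)⟩

lemma Adj.mem_Lf {V : Finset E3} (hV : Good V) {v w : E3} (h : Adj V v w) :
    v ∈ Lf V v w ∧ w ∈ Lf V v w := by
  obtain ⟨x, hx⟩ := h.supp hV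
  rw [hx.Lf_eq]
  exact ⟨(mem_Fac h.1 h.2.1 hx.1).1, (mem_Fac h.1 h.2.1 hx.1).2.1⟩

open Classical in
lemma local_area {V : Finset E3} (hV : Good V) (om : Set E3 → E3)
    (hpar : ∀ v w, Adj V v w → ∃ r : ℝ, om (Lf V v w) - om (Lf V w v) = r • (w - v))
    {v w1 : E3} (h1 : Adj V v w1) :
    ⟪∑ w ∈ V.filter (Adj V v), cross (om (Lf V w v)) (om (Lf V v w)), w1 - v⟫ ≤ 0 ∧
    (⟪∑ w ∈ V.filter (Adj V v), cross (om (Lf V w v)) (om (Lf V v w)), w1 - v⟫ = 0 →
      ∀ w, Adj V v w → om (Lf V v w) = om (Lf V v w1) ∧ om (Lf V w v) = om (Lf V v w1)) := by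
  obtain ⟨k, c, hs, rfl⟩ := hV.star h1
  obtain ⟨n1, hn0, hn1⟩ := h1.2.2.2
  have hn : ⟪-n1, c 0 - v⟫ = 0 := by rw [inner_neg_left, hn0, neg_zero]
  set n := -n1 with hndef
  set e := c 0 - v with he
  have hsp : ∀ i < k, 0 < ⟪n, c (i + 1) - v⟫ := fun i hi => by
    have := hn1 _ (hs.adj (i + 1) hi).2.1 (hs.adj (i + 1) hi).2.2.1.symm
      (hs.inj 0 (i + 1) (by omega) hi).symm
    rw [hndef, inner_neg_left]; linarith
  have h2 := hs.two
  have hnn : 0 < ⟪n, n⟫ := inner_self_pos' fun h => by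
    have := hsp 0 (by omega)
    rw [h] at this; simp at this
  set O : ℕ → E3 := fun i => om (Lf V v (c i)) with hO
  have hsum : ∑ w ∈ V.filter (Adj V v), cross (om (Lf V w v)) (om (Lf V v w)) =
      ∑ i ∈ range k, cross (O i) (O (i + 1)) + cross (O k) (O 0) := by
    have : V.filter (Adj V v) = (range (k + 1)).image c := by
      ext w
      simp only [mem_filter, mem_image, mem_range]
      constructor
      · rintro ⟨-, hw⟩
        obtain ⟨i, hi, rfl⟩ := hs.surj w hw
        exact ⟨i, by omega, rfl⟩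
      · rintro ⟨i, hi, rfl⟩
        exact ⟨(hs.adj i (by omega)).2.1, hs.adj i (by omega)⟩
    rw [this, sum_image, sum_range_succ', hs.Lf_last hV]
    · congr 1
      exact sum_congr rfl fun i hi => by rw [hs.Lf_succ hV (mem_range.1 hi)]
    · intro i hi j hj hij
      simp only [coe_range, Set.mem_Iio] at hi hj
      rcases lt_trichotomy i j with h | h | h
      · exact absurd hij (hs.inj i j h (by omega))
      · exact h
      · exact absurd hij.symm (hs.inj j i h (by omega))
  have hstep : ∀ i < k, ∃ r : ℝ, O (i + 1) - O i = r • (c (i + 1) - v) := fun i hi => by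
    have := hpar v (c (i + 1)) (hs.adj _ hi)
    rwa [hs.Lf_succ hV hi] at this
  have hlast : ∃ r : ℝ, O 0 - O k = r • e := by
    have := hpar v (c 0) h1
    rwa [hs.Lf_last hV] at this
  let X : ℕ → ℝ := fun i => ⟪n, O i - O 0⟫
  let Y : ℕ → ℝ := fun i => det3 e n (O i - O 0)
  let m : ℕ → ℝ := fun i => det3 e n (c (i + 1) - v) / ⟪n, c (i + 1) - v⟫
  have hXd : ∀ i, X (i + 1) - X i = ⟪n, O (i + 1) - O i⟫ := fun i => by
    simp only [X, inner_sub_right]; ring
  obtain ⟨A1, A2⟩ := abel_area X Y m k (by simp [X]) (by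
      obtain ⟨r, hr⟩ := hlast
      simp only [X]
      rw [← neg_sub, hr, inner_neg_right, inner_smul_right, hn]; simp)
    (fun i hi => by
      have p := hs.pos 0 (i + 1) (i + 1 + 1) (by omega) (by omega) hi
      have s1 := hsp i (by omega)
      have s2 := hsp (i + 1) hi
      have e1 := slope_id (y := c (i + 1) - v) (z := c (i + 1 + 1) - v) hn
      simp only [m]
      rw [div_lt_div_iff₀ s1 s2]
      have := mul_pos hnn p
      linarith)
    (fun i hi => by
      obtain ⟨r, hr⟩ := hstep i hi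
      have s1 := hsp i hi
      have : Y (i + 1) - Y i = det3 e n (O (i + 1) - O i) := by
        simp only [Y, det3, PiLp.sub_apply]; ring
      rw [this, hXd, hr, inner_smul_right, ← inner_cross, inner_smul_right, inner_cross]
      simp only [m]
      field_simp)
  have hkey : ⟪n, n⟫ * ⟪∑ i ∈ range k, cross (O i) (O (i + 1)) + cross (O k) (O 0), e⟫ =
      ∑ i ∈ range k, (X i * Y (i + 1) - X (i + 1) * Y i) := by
    have t1 : ∀ i, ⟪cross (O i) (O (i + 1)), e⟫ = det3 e (O i - O 0) (O (i + 1) - O 0) +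
        (det3 e (O 0) (O (i + 1)) - det3 e (O 0) (O i)) := fun i => by
      rw [inner_cross]; simp only [det3, PiLp.sub_apply]; ring
    rw [inner_add_left, sum_inner]
    simp only [t1]
    rw [sum_add_distrib, sum_range_sub (fun i => det3 e (O 0) (O i)), inner_cross]
    have t2 : det3 e (O 0) (O k) - det3 e (O 0) (O 0) + det3 (O k) (O 0) e = 0 := by
      simp only [det3]; ring
    rw [add_assoc, t2, add_zero, mul_sum]
    exact sum_congr rfl fun i _ => slope_id hn
  rw [hsum]
  refine ⟨by nlinarith, fun h0 => ?_⟩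
  rw [h0, mul_zero] at hkey
  have hX := A2 hkey.symm
  have hall : ∀ i ≤ k, O i = O 0 := by
    intro i
    induction i with
    | zero => intro _; rfl
    | succ i ih =>
      intro hi
      obtain ⟨r, hr⟩ := hstep i hi
      have e1 := hXd i
      rw [hX _ hi, hX i (by omega), hr, inner_smul_right] at e1
      have hr0 : r = 0 := by
        have := hsp i hi
        rcases mul_eq_zero.1 (show r * ⟪n, c (i + 1) - v⟫ = 0 by linarith) with h | h
        · exact h
        · linarith
      rw [hr0, zero_smul, sub_eq_zero] at hr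
      rw [hr, ih (by omega)]
  intro w hw
  obtain ⟨i, hi, rfl⟩ := hs.surj w hw
  refine ⟨hall i hi, ?_⟩
  rcases i with _ | i
  · rw [hs.Lf_last hV]; exact hall k le_rfl
  · rw [hs.Lf_succ hV hi]; exact hall i (by omega)

/-- Infinitesimal rigidity of a convex polytope with rigid faces. -/
theorem inf_rigid {V : Finset E3} (hV : Good V) (d : E3 → E3) (om : Set E3 → E3)
    (hd : ∀ v w, Adj V v w → ∀ x ∈ V, ∀ y ∈ V, x ∈ Lf V v w → y ∈ Lf V v w →
      d x - d y = cross (om (Lf V v w)) (x - y)) :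
    ∃ W : E3, ∀ x ∈ V, ∀ y ∈ V, d x - d y = cross W (x - y) := by
  classical
  have hedge : ∀ v w, Adj V v w → d w - d v = cross (om (Lf V v w)) (w - v) := fun v w h =>
    hd v w h w h.2.1 v h.1 (h.mem_Lf hV).2 (h.mem_Lf hV).1
  have hpar : ∀ v w, Adj V v w → ∃ r : ℝ, om (Lf V v w) - om (Lf V w v) = r • (w - v) := by
    intro v w h
    apply parallel_of_cross (sub_ne_zero.2 h.2.2.1.symm)
    rw [sub_cross, ← hedge v w h,
      ← hd w v h.symm w h.2.1 v h.1 (h.symm.mem_Lf hV).1 (h.symm.mem_Lf hV).2, sub_self]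
  set al : E3 → E3 := fun v => ∑ w ∈ V.filter (Adj V v), cross (om (Lf V w v)) (om (Lf V v w))
    with hal
  have hglob : ∀ o : E3, ∑ v ∈ V, ⟪al v, o - v⟫ = 0 := by
    intro o
    let f : E3 → E3 → ℝ := fun v w =>
      if Adj V v w then det3 (om (Lf V w v)) (om (Lf V v w)) (o - v) else 0
    have e1 : ∑ v ∈ V, ⟪al v, o - v⟫ = ∑ v ∈ V, ∑ w ∈ V, f v w := by
      refine sum_congr rfl fun v _ => ?_
      simp only [hal, f]
      rw [sum_inner, sum_filter]
      simp only [inner_cross]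
    have e2 : ∀ v w, f v w + f w v = 0 := by
      intro v w
      simp only [f]
      by_cases h : Adj V v w
      · rw [if_pos h, if_pos h.symm]
        obtain ⟨r, hr⟩ := hpar v w h
        rw [sub_eq_iff_eq_add.1 hr]
        simp only [det3, PiLp.sub_apply, PiLp.add_apply, PiLp.smul_apply, smul_eq_mul]
        ring
      · rw [if_neg h, if_neg fun h' => h h'.symm, add_zero]
    have e3 : ∑ v ∈ V, ∑ w ∈ V, f v w + ∑ v ∈ V, ∑ w ∈ V, f v w = 0 := by
      nth_rewrite 2 [sum_comm]
      simp only [← sum_add_distrib, e2, sum_const_zero]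
    linarith
  have hconst : ∀ v ∈ V, ∃ W, ∀ w, Adj V v w → om (Lf V v w) = W ∧ om (Lf V w v) = W := by
    intro v hv
    obtain ⟨o, ho, hov⟩ := hV.exists_ne v
    have hle : ∀ u ∈ V, ⟪al u, o - u⟫ ≤ 0 := fun u hu =>
      hV.cone_le hu (al u) (fun w hw => (local_area hV om hpar hw).1) o ho
    have h0 := (sum_eq_zero_iff_of_nonpos hle).1 (hglob o) v hv
    by_contra hcon
    have := hV.cone_lt hv (al v) (fun w hw => lt_of_le_of_ne (local_area hV om hpar hw).1
      fun e => hcon ⟨_, (local_area hV om hpar hw).2 e⟩) o ho hov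
    linarith
  choose! W hW using hconst
  obtain ⟨o, ho, -⟩ := hV.exists_ne 0
  have hall := hV.connected ho (fun v => W v = W o ∧ d v - d o = cross (W o) (v - o))
    ⟨rfl, by rw [sub_self, sub_self]; apply ext3 <;> simp⟩ (fun v w h hw => by
      have e1 : W v = W o := by
        rw [← hw.1, ← (hW v h.1 w h).1, (hW w h.2.1 v h.symm).2]
      refine ⟨e1, ?_⟩
      have e2 := hedge v w h
      rw [(hW v h.1 w h).1, e1] at e2
      have e3 : v - o = (w - o) - (w - v) := by abel
      rw [e3, cross_sub, ← hw.2, ← e2]; abel)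
  refine ⟨W o, fun x hx y hy => ?_⟩
  have e3 : x - y = (x - o) - (y - o) := by abel
  rw [e3, cross_sub, ← (hall x hx).2, ← (hall y hy).2]; abel

end Pool.Agent.Lib.MP_e0197a_co
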