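import Mathlib
import Pool.Agent.Lib.MP_e0197a_co.Inf

set_option autoImplicit false

namespace Pool.Agent.Lib.MP_e0197a_co

open Finset RealInnerProductSpace

/-- A face of dimension `k`. -/
def FaceDim (P : Set E3) (k : ℕ) (F : Set E3) : Prop :=
  IsExposed ℝ P F ∧ Module.finrank ℝ (vectorSpan ℝ F) = k

lemma hull_le {V : Finset E3} {n v : E3} (h : ∀ x ∈ V, ⟪n, x - v⟫ ≤ 0) :
    ∀ y ∈ convexHull ℝ (V : Set E3), ⟪n, y - v⟫ ≤ 0 := by
  intro y hy
  have : y ∈ {u : E3 | ⟪n, u⟫ ≤ ⟪n, v⟫} := by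
    refine convexHull_min (fun x hx => ?_)
      (convex_halfSpace_le (f := fun u => ⟪n, u⟫) (innerSL ℝ n).toLinearMap.isLinear _) hy
    have := h x hx
    rw [inner_sub_right] at this
    simp only [Set.mem_ofPred_eq]; linarith
  simp only [Set.mem_ofPred_eq] at this
  rw [inner_sub_right]; linarith

lemma exposed_of_le {V : Finset E3} {n v : E3} (hv : v ∈ V) (h : ∀ x ∈ V, ⟪n, x - v⟫ ≤ 0) :
    IsExposed ℝ (convexHull ℝ (V : Set E3)) {y ∈ convexHull ℝ (V : Set E3) | ⟪n, y - v⟫ = 0} := by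
  intro _
  refine ⟨innerSL ℝ n, ?_⟩
  ext y
  simp only [Set.mem_ofPred_eq, innerSL_apply_apply]
  refine and_congr_right fun hy => ⟨fun h0 z hz => ?_, fun h0 => ?_⟩
  · have := hull_le h z hz
    rw [inner_sub_right] at this h0; linarith
  · have := h0 v (subset_convexHull ℝ _ hv)
    have := hull_le h y hy
    rw [inner_sub_right] at *; linarith

lemma mem_span_of_orth {a b u : E3} (h : cross a b ≠ 0) (hu : ⟪cross a b, u⟫ = 0) :
    ∃ s t : ℝ, u = s • a + t • b := by
  have hp := inner_self_pos' h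
  have := cramer3 a b u
  rw [← inner_cross a b u, hu, zero_smul, add_zero] at this
  refine ⟨(⟪cross a b, cross a b⟫)⁻¹ * det3 u b (cross a b),
    (⟪cross a b, cross a b⟫)⁻¹ * det3 a u (cross a b), ?_⟩
  rw [mul_smul, mul_smul, ← smul_add, ← this, smul_smul, inv_mul_cancel₀ hp.ne', one_smul]

lemma Supp.face {V : Finset E3} {v w x : E3} (h : Supp V v w x) (hv : v ∈ V) (hw : w ∈ V) :
    FaceDim (convexHull ℝ (V : Set E3)) 2 (Fac V v w x) := by
  constructor
  · have := exposed_of_le (n := -cross (w - v) (x - v)) hv (fun y hy => by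
      rw [inner_neg_left, inner_cross, neg_nonpos]; exact h.2.1 y hy)
    simpa only [inner_neg_left, inner_cross, neg_eq_zero, Fac] using this
  · obtain ⟨m1, m2, m3⟩ := mem_Fac hv hw h.1
    have hli : LinearIndependent ℝ ![w - v, x - v] := by
      rw [LinearIndependent.pair_iff' (fun e => h.2.2 (by rw [e]; apply ext3 <;> simp))]
      intro a e
      apply h.2.2
      rw [← e]; apply ext3 <;> simp <;> ring
    have hsp : vectorSpan ℝ (Fac V v w x) = Submodule.span ℝ (Set.range ![w - v, x - v]) := by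
      apply le_antisymm
      · rw [vectorSpan_def, Submodule.span_le]
        rintro u ⟨y, hy, z, hz, rfl⟩
        obtain ⟨s, t, hst⟩ := mem_span_of_orth (u := y - z) h.2.2 (by
          have e1 := hy.2
          have e2 := hz.2
          rw [← inner_cross, inner_sub_right] at e1 e2
          rw [inner_sub_right]; linarith)
        change y - z ∈ _
        rw [hst]
        exact Submodule.add_mem _ (Submodule.smul_mem _ _ (Submodule.subset_span ⟨0, rfl⟩))
          (Submodule.smul_mem _ _ (Submodule.subset_span ⟨1, rfl⟩))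
      · rw [Submodule.span_le]
        rintro u ⟨i, rfl⟩
        fin_cases i
        · exact vsub_mem_vectorSpan ℝ m2 m1
        · exact vsub_mem_vectorSpan ℝ m3 m1
    rw [hsp, finrank_span_eq_card hli]; simp

lemma Adj.face {V : Finset E3} (hV : Good V) {v w : E3} (h : Adj V v w) :
    FaceDim (convexHull ℝ (V : Set E3)) 2 (Lf V v w) := by
  obtain ⟨x, hx⟩ := h.supp hV
  rw [hx.Lf_eq]
  exact hx.face h.1 h.2.1

lemma Adj.edge {V : Finset E3} {v w : E3} (h : Adj V v w) :
    FaceDim (convexHull ℝ (V : Set E3)) 1 (segment ℝ v w) := by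
  obtain ⟨hv, hw, hne, n, h0, h1⟩ := h
  have hseg : ∀ y ∈ segment ℝ v w, ⟪n, y - v⟫ = 0 := by
    rintro y ⟨a, b, -, -, hab, rfl⟩
    have : a • v + b • w - v = b • (w - v) := by
      rw [show a = 1 - b by linarith]; module
    rw [this, inner_smul_right, h0, mul_zero]
  constructor
  · have := exposed_of_le (n := n) hv (fun y hy => by
      by_cases e1 : y = v
      · simp [e1]
      by_cases e2 : y = w
      · rw [e2, h0]
      exact (h1 y hy e1 e2).le)
    convert this
    ext y
    refine ⟨fun hy => ⟨(convex_convexHull ℝ _).segment_subset (subset_convexHull ℝ _ hv)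
      (subset_convexHull ℝ _ hw) hy, hseg y hy⟩, fun ⟨hy, hy0⟩ => ?_⟩
    have : y ∈ {u : E3 | ⟪n, u - v⟫ < 0 ∨ u ∈ segment ℝ v w} := by
      refine convexHull_min (fun x hx => ?_) ?_ hy
      · by_cases e1 : x = v
        · exact Or.inr (e1 ▸ left_mem_segment ℝ _ _)
        by_cases e2 : x = w
        · exact Or.inr (e2 ▸ right_mem_segment ℝ _ _)
        exact Or.inl (h1 x hx e1 e2)
      · intro a ha b hb s t hs ht hst
        have e : ⟪n, s • a + t • b - v⟫ = s * ⟪n, a - v⟫ + t * ⟪n, b - v⟫ := by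
          simp only [inner_sub_right, inner_add_right, inner_smul_right]
          linear_combination (⟪n, v⟫) * hst
        simp only [Set.mem_ofPred_eq] at ha hb ⊢
        rcases hs.eq_or_lt with rfl | hs'
        · have : t = 1 := by linarith
          subst this; simpa using hb
        rcases ht.eq_or_lt with rfl | ht'
        · have : s = 1 := by linarith
          subst this; simpa using ha
        rcases ha with ha | ha <;> rcases hb with hb | hb
        · left; rw [e]; nlinarith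
        · left; rw [e, hseg b hb]; nlinarith
        · left; rw [e, hseg a ha]; nlinarith
        · right; exact convex_segment v w ha hb hs ht hst
    rcases this with h | h
    · linarith
    · exact h
  · rw [vectorSpan_segment]
    exact finrank_span_singleton (sub_ne_zero.2 hne.symm)

lemma face_hull {V : Finset E3} {F : Set E3} (hF : IsExposed ℝ (convexHull ℝ (V : Set E3)) F) :
    F = convexHull ℝ ((V : Set E3) ∩ F) := by
  have hc := hF.convex (convex_convexHull ℝ _)
  refine Set.Subset.antisymm ?_ (convexHull_min Set.inter_subset_right hc)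
  have h := closure_convexHull_extremePoints
    (hF.isCompact (V.finite_toSet.isCompact_convexHull ℝ)) hc
  have hsub : F.extremePoints ℝ ⊆ (V : Set E3) ∩ F := fun x hx =>
    ⟨extremePoints_convexHull_subset (hF.isExtreme.extremePoints_subset_extremePoints hx), hx.1⟩
  nth_rewrite 1 [← h]
  exact closure_minimal (convexHull_mono hsub)
    ((V.finite_toSet.subset Set.inter_subset_left).isClosed_convexHull ℝ)

lemma facet_data {V : Finset E3} (hV : Good V) {F : Set E3}
    (hF : FaceDim (convexHull ℝ (V : Set E3)) 2 F) :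
    ∃ l a b c : E3, l ≠ 0 ∧ a ∈ V ∧ b ∈ V ∧ c ∈ V ∧ a ∈ F ∧ b ∈ F ∧ c ∈ F ∧
      cross (b - a) (c - a) ≠ 0 ∧ ∀ v ∈ F, (∀ y ∈ V, ⟪l, y - v⟫ ≤ 0) ∧
        F = {y ∈ convexHull ℝ (V : Set E3) | ⟪l, y - v⟫ = 0} := by
  have hvs : vectorSpan ℝ F = vectorSpan ℝ ((V : Set E3) ∩ F) := by
    nth_rewrite 1 [face_hull hF.1]
    rw [← direction_affineSpan, affineSpan_convexHull, direction_affineSpan]
  have hncol : ¬ Collinear ℝ ((V : Set E3) ∩ F) := fun h => by
    have := h.finrank_le_one
    rw [← hvs, hF.2] at this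
    omega
  obtain ⟨a, ha⟩ : ((V : Set E3) ∩ F).Nonempty := by
    by_contra h
    rw [Set.not_nonempty_iff_eq_empty.1 h] at hncol
    exact hncol (collinear_empty ℝ _)
  obtain ⟨b, hb, hba⟩ : ∃ b ∈ (V : Set E3) ∩ F, b ≠ a := by
    by_contra h
    push Not at h
    exact hncol ((collinear_iff_of_mem ha).2 ⟨0, fun p hp => ⟨0, by simp [h p hp]⟩⟩)
  obtain ⟨c, hc, hcr⟩ : ∃ c ∈ (V : Set E3) ∩ F, cross (c - a) (b - a) ≠ 0 := by
    by_contra h
    push Not at h
    refine hncol ((collinear_iff_of_mem ha).2 ⟨b - a, fun p hp => ?_⟩)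
    obtain ⟨r, hr⟩ := parallel_of_cross (sub_ne_zero.2 hba) (h p hp)
    exact ⟨r, by rw [← hr]; simp⟩
  obtain ⟨f, hf⟩ := hF.1 ⟨a, ha.2⟩
  obtain ⟨l, hl⟩ := exists_inner_of_dual f
  simp only [hl] at hf
  have hmain : ∀ v ∈ F, (∀ y ∈ V, ⟪l, y - v⟫ ≤ 0) ∧
      F = {y ∈ convexHull ℝ (V : Set E3) | ⟪l, y - v⟫ = 0} := by
    intro v hv
    have hv' := hv
    rw [hf] at hv'
    refine ⟨fun y hy => ?_, ?_⟩
    · have := hv'.2 y (subset_convexHull ℝ _ hy)
      rw [inner_sub_right]; linarith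
    · rw [hf]
      ext y
      simp only [Set.mem_ofPred_eq, inner_sub_right]
      refine and_congr_right fun hy => ⟨fun h => ?_, fun h z hz => ?_⟩
      · have := h v hv'.1
        have := hv'.2 y hy
        linarith
      · have := hv'.2 z hz
        linarith
  refine ⟨l, a, c, b, fun h0 => ?_, ha.1, hc.1, hb.1, ha.2, hc.2, hb.2, hcr, hmain⟩
  have hK : vectorSpan ℝ F ≠ ⊤ := fun e => by
    have := hF.2
    rw [e, finrank_top] at this
    simp at this
  obtain ⟨n, hn, hn0⟩ := (Submodule.ne_bot_iff _).1 (mt Submodule.orthogonal_eq_bot_iff.1 hK)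
  refine hn0 (hV.full n fun x hx y hy => ?_)
  have hall : ∀ x ∈ V, x ∈ F := fun x hx => by
    rw [(hmain a ha.2).2]
    exact ⟨subset_convexHull ℝ _ hx, by simp [h0]⟩
  exact Submodule.inner_left_of_mem_orthogonal (vsub_mem_vectorSpan ℝ (hall x hx) (hall y hy)) hn

/-- Every facet through a vertex is one of the facets of its star. -/
lemma facet_at_vertex {V : Finset E3} (hV : Good V) {F : Set E3}
    (hF : FaceDim (convexHull ℝ (V : Set E3)) 2 F) {v : E3} (hvF : v ∈ F) {k : ℕ} {c : ℕ → E3}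
    (hs : Star V v k c) : ∃ i ≤ k, F = Lf V v (c i) := by
  have hv : v ∈ V := (hs.adj 0 (by omega)).1
  obtain ⟨l, a, b, e, hl, ha, hb, he, haF, hbF, heF, hcr, hmain⟩ := facet_data hV hF
  obtain ⟨hle, hFeq⟩ := hmain v hvF
  have hon : ∀ x ∈ F, ⟪l, x - v⟫ = 0 := fun x hx => by rw [hFeq] at hx; exact hx.2
  have hone : ∀ w' : E3, ∃ w, Adj V v w ∧ w ≠ w' ∧ ⟪l, w - v⟫ = 0 := by
    intro w'
    by_contra hcon
    push Not at hcon
    obtain ⟨n, hn, hn1, hn2⟩ := exists_orth l (w' - v)
    have key := hV.cone_lex hv l n (fun w hw => by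
      rcases (hle w hw.2.1).eq_or_lt with h | h
      · right
        have : w = w' := by
          by_contra hne
          exact hcon w hw hne h
        exact ⟨h, this ▸ hn2⟩
      · exact Or.inl h)
    have d1 : ∀ z : E3, ⟪z, a - v⟫ = 0 → ⟪z, b - v⟫ = 0 → ⟪z, e - v⟫ = 0 →
        ∃ r : ℝ, z = r • cross (b - a) (e - a) := fun z h1 h2 h3 =>
      parallel_cross hcr (by rw [inner_sub_right] at *; linarith)
        (by rw [inner_sub_right] at *; linarith)
    obtain ⟨r, hr⟩ := d1 l (hon a haF) (hon b hbF) (hon e heF)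
    obtain ⟨s, hs'⟩ := d1 n (key a ha (hon a haF)) (key b hb (hon b hbF)) (key e he (hon e heF))
    rw [hr, hs', real_inner_smul_left, inner_smul_right] at hn1
    have hp := inner_self_pos' hcr
    rcases mul_eq_zero.1 hn1 with h | h
    · exact hn (by rw [hs', h, zero_smul])
    · rcases mul_eq_zero.1 h with h | h
      · exact hl (by rw [hr, h, zero_smul])
      · exact hp.ne' h
  obtain ⟨i, j, hij, hj, hi0, hj0⟩ : ∃ i j, i < j ∧ j ≤ k ∧ ⟪l, c i - v⟫ = 0 ∧ ⟪l, c j - v⟫ = 0 := by
    obtain ⟨w1, hw1, -, h1⟩ := hone v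
    obtain ⟨w2, hw2, hne, h2⟩ := hone w1
    obtain ⟨i, hi, rfl⟩ := hs.surj w1 hw1
    obtain ⟨j, hj, rfl⟩ := hs.surj w2 hw2
    rcases lt_trichotomy i j with h | h | h
    · exact ⟨i, j, h, hj, h1, h2⟩
    · exact absurd (by rw [h]) hne
    · exact ⟨j, i, h, hi, h2, h1⟩
  obtain ⟨r, hr⟩ := parallel_cross
    (two_indep (hs.adj i (by omega)) (hs.adj j hj) (hs.inj i j hij hj)) hi0 hj0
  have hr0 : r ≠ 0 := fun h => hl (by rw [hr, h, zero_smul])
  have hFac : F = Fac V v (c i) (c j) := by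
    rw [hFeq]
    ext y
    simp only [Fac, Set.mem_ofPred_eq, hr, real_inner_smul_left, inner_cross, mul_eq_zero, hr0,
      false_or]
  have hsign : ∀ t ≤ k, r * det3 (c i - v) (c j - v) (c t - v) ≤ 0 := fun t ht => by
    have := hle _ (hs.adj t ht).2.1
    rwa [hr, real_inner_smul_left, inner_cross] at this
  by_cases h1 : j = i + 1
  · subst h1
    exact ⟨i, by omega, by rw [hFac, (hs.supp_succ hV hj).Lf_eq]⟩
  by_cases h2 : i = 0 ∧ j = k
  · obtain ⟨rfl, rfl⟩ := h2
    exact ⟨j, le_rfl, by rw [hFac, (hs.supp_last hV).Lf_eq, Fac_swap]⟩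
  exfalso
  have p1 : det3 (c i - v) (c j - v) (c (i + 1) - v) < 0 := by
    rw [det3_swap]
    have := hs.pos i (i + 1) j (by omega) (by omega) hj
    linarith
  have q1 := hsign (i + 1) (by omega)
  obtain ⟨t, ht, p2⟩ : ∃ t ≤ k, 0 < det3 (c i - v) (c j - v) (c t - v) := by
    by_cases h3 : j < k
    · exact ⟨k, le_rfl, hs.pos i j k hij h3 le_rfl⟩
    · refine ⟨0, by omega, ?_⟩
      rw [← det3_rot]
      exact hs.pos 0 i j (by omega) hij hj
  have q2 := hsign t ht
  rcases lt_or_gt_of_ne hr0 with h | h <;> nlinarith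

end Pool.Agent.Lib.MP_e0197a_co
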