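import Mathlib
import Pool.Agent.Lib.MP_e0197a_co.Faces

set_option autoImplicit false

namespace Pool.Agent.Lib.MP_e0197a_co

open Finset RealInnerProductSpace

lemma facet_omega {V : Finset E3} (hV : Good V) {F : Set E3}
    (hF : FaceDim (convexHull ℝ (V : Set E3)) 2 F) (B : E3 →ₗ[ℝ] E3)
    (hB : ∀ x ∈ V, ∀ y ∈ V, x ∈ F → y ∈ F → ⟪x - y, B (x - y)⟫ = 0) :
    ∃ w : E3, ∀ x ∈ F, ∀ y ∈ F, B (x - y) = cross w (x - y) := by
  obtain ⟨l, a, b, c, hl, ha, hb, hc, haF, hbF, hcF, hcr, hmain⟩ := facet_data hV hF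
  have hon : ∀ x ∈ F, ⟪l, x - a⟫ = 0 := fun x hx => by rw [(hmain a haF).2] at hx; exact hx.2
  have e1 := hB b hb a ha hbF haF
  have e2 := hB c hc a ha hcF haF
  have e3 := hB b hb c hc hbF hcF
  have e4 : b - c = (b - a) - (c - a) := by abel
  rw [e4, map_sub B (b - a), inner_sub_left, inner_sub_right (b - a), inner_sub_right (c - a),
    e1, e2] at e3
  obtain ⟨w, hw1, hw2⟩ := exists_omega hcr e1 e2 (by linarith)
  obtain ⟨r, hr⟩ := parallel_cross hcr (hon b hbF) (hon c hcF)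
  have hr0 : r ≠ 0 := fun h => hl (by rw [hr, h, zero_smul])
  refine ⟨w, fun x hx y hy => ?_⟩
  obtain ⟨s, t, hst⟩ := mem_span_of_orth (u := x - y) hcr (by
    have f1 := hon x hx
    have f2 := hon y hy
    have : ⟪l, x - y⟫ = 0 := by rw [inner_sub_right] at *; linarith
    rw [hr, real_inner_smul_left] at this
    exact (mul_eq_zero.1 this).resolve_left hr0)
  rw [hst, map_add, map_smul, map_smul, cross_add, cross_smul, cross_smul, hw1, hw2]

open Classical in
lemma rigid_gap {V : Finset E3} (hV : Good V) (a b c : V)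
    (hcr : cross (b.1 - a.1) (c.1 - a.1) ≠ 0) :
    ∃ K : ℝ, 0 < K ∧ ∀ d : V → E3, d a = 0 → d b = 0 → d c = 0 →
      (∀ F, FaceDim (convexHull ℝ (V : Set E3)) 2 F → ∃ B : E3 →ₗ[ℝ] E3, ∀ x y : V,
        x.1 ∈ F → y.1 ∈ F → d x - d y = B (x.1 - y.1) ∧ ‖x.1 - y.1 + (d x - d y)‖ = ‖x.1 - y.1‖) →
      ‖d‖ = 0 ∨ K ≤ ‖d‖ := by
  let W : Submodule ℝ (V → E3) :=
    { carrier := {d | d a = 0 ∧ d b = 0 ∧ d c = 0 ∧ ∀ F, FaceDim (convexHull ℝ (V : Set E3)) 2 F →
        ∃ B : E3 →ₗ[ℝ] E3, ∀ x y : V, x.1 ∈ F → y.1 ∈ F → d x - d y = B (x.1 - y.1)}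
      add_mem' := by
        rintro d e ⟨d1, d2, d3, d4⟩ ⟨e1, e2, e3, e4⟩
        refine ⟨by simp [d1, e1], by simp [d2, e2], by simp [d3, e3], fun F hF => ?_⟩
        obtain ⟨B, hB⟩ := d4 F hF
        obtain ⟨C, hC⟩ := e4 F hF
        refine ⟨B + C, fun x y hx hy => ?_⟩
        rw [LinearMap.add_apply, ← hB x y hx hy, ← hC x y hx hy]
        simp only [Pi.add_apply]; abel
      zero_mem' := ⟨rfl, rfl, rfl, fun F _ => ⟨0, fun x y _ _ => by simp⟩⟩
      smul_mem' := by
        rintro r d ⟨d1, d2, d3, d4⟩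
        refine ⟨by simp [d1], by simp [d2], by simp [d3], fun F hF => ?_⟩
        obtain ⟨B, hB⟩ := d4 F hF
        refine ⟨r • B, fun x y hx hy => ?_⟩
        rw [LinearMap.smul_apply, ← hB x y hx hy]
        simp only [Pi.smul_apply, smul_sub] }
  let Co : V × V → Prop := fun p =>
    ∃ F, FaceDim (convexHull ℝ (V : Set E3)) 2 F ∧ p.1.1 ∈ F ∧ p.2.1 ∈ F
  let L : W →ₗ[ℝ] (V × V → ℝ) :=
    { toFun := fun d p => if Co p then ⟪p.1.1 - p.2.1, d.1 p.1 - d.1 p.2⟫ else 0
      map_add' := fun d e => by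
        ext p
        simp only [Submodule.coe_add, Pi.add_apply]
        split_ifs
        · rw [← inner_add_right]; congr 1; abel
        · simp
      map_smul' := fun r d => by
        ext p
        simp only [Submodule.coe_smul, Pi.smul_apply, RingHom.id_apply, smul_eq_mul]
        split_ifs
        · rw [← smul_sub, inner_smul_right]
        · simp }
  have hker : LinearMap.ker L = ⊥ := by
    rw [LinearMap.ker_eq_bot']
    rintro ⟨d, d1, d2, d3, d4⟩ hd
    have hL : ∀ p, Co p → ⟪p.1.1 - p.2.1, d p.1 - d p.2⟫ = 0 := fun p hp => by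
      have := congrFun hd p
      simpa only [L, LinearMap.coe_mk, AddHom.coe_mk, if_pos hp, Pi.zero_apply] using this
    have hom : ∀ F, FaceDim (convexHull ℝ (V : Set E3)) 2 F → ∃ w : E3, ∀ x y : V,
        x.1 ∈ F → y.1 ∈ F → d x - d y = cross w (x.1 - y.1) := by
      intro F hF
      obtain ⟨B, hB⟩ := d4 F hF
      obtain ⟨w, hw⟩ := facet_omega hV hF B (fun x hx y hy hxF hyF => by
        rw [← hB ⟨x, hx⟩ ⟨y, hy⟩ hxF hyF]
        exact hL (⟨x, hx⟩, ⟨y, hy⟩) ⟨F, hF, hxF, hyF⟩)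
      exact ⟨w, fun x y hx hy => by rw [hB x y hx hy, hw _ hx _ hy]⟩
    choose! om hom using hom
    obtain ⟨W0, hW0⟩ := inf_rigid hV (fun x => if h : x ∈ V then d ⟨x, h⟩ else 0) om
      (fun v w h x hx y hy hxF hyF => by
        simp only [dif_pos hx, dif_pos hy]
        exact hom _ (h.face hV) ⟨x, hx⟩ ⟨y, hy⟩ hxF hyF)
    have hW : ∀ x y : V, d x - d y = cross W0 (x.1 - y.1) := fun x y => by
      have := hW0 x.1 x.2 y.1 y.2
      simpa only [dif_pos x.2, dif_pos y.2] using this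
    have f1 := hW b a
    have f2 := hW c a
    rw [d2, d1, sub_zero] at f1
    rw [d3, d1, sub_zero] at f2
    obtain ⟨r, hr⟩ := parallel_of_cross
      (fun e => hcr (by rw [e]; apply ext3 <;> simp)) f1.symm
    have hr0 : r = 0 := by
      have : cross W0 (c.1 - a.1) = r • cross (b.1 - a.1) (c.1 - a.1) := by
        rw [hr]; apply ext3 <;> simp <;> ring
      rw [← f2] at this
      exact (smul_eq_zero.1 this.symm).resolve_right hcr
    ext x : 2
    have := hW x a
    rw [d1, sub_zero, hr, hr0, zero_smul] at this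
    change d x = 0
    rw [this]; apply ext3 <;> simp
  obtain ⟨K, hK, hanti⟩ := L.exists_antilipschitzWith hker
  have hK' : (0 : ℝ) < K := hK
  refine ⟨1 / (2 * K), by positivity, fun d d1 d2 d3 d4 => ?_⟩
  have hdW : d ∈ W := ⟨d1, d2, d3, fun F hF => by
    obtain ⟨B, hB⟩ := d4 F hF
    exact ⟨B, fun x y hx hy => (hB x y hx hy).1⟩⟩
  have h1 : ‖d‖ ≤ K * ‖L ⟨d, hdW⟩‖ := by
    have := hanti.le_mul_dist ⟨d, hdW⟩ 0
    rwa [map_zero, dist_zero_right, dist_zero_right] at this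
  have h2 : ‖L ⟨d, hdW⟩‖ ≤ 2 * ‖d‖ ^ 2 := by
    rw [pi_norm_le_iff_of_nonneg (by positivity)]
    intro p
    simp only [L, LinearMap.coe_mk, AddHom.coe_mk]
    split_ifs with hp
    · obtain ⟨F, hF, hx, hy⟩ := hp
      obtain ⟨B, hB⟩ := d4 F hF
      have e1 := (hB p.1 p.2 hx hy).2
      have e2 := norm_add_sq_real (p.1.1 - p.2.1) (d p.1 - d p.2)
      rw [e1] at e2
      have e3 : ‖d p.1 - d p.2‖ ≤ 2 * ‖d‖ := by
        have := norm_sub_le (d p.1) (d p.2)
        have := norm_le_pi_norm d p.1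
        have := norm_le_pi_norm d p.2
        linarith
      have e4 : ‖d p.1 - d p.2‖ ^ 2 ≤ (2 * ‖d‖) ^ 2 := pow_le_pow_left₀ (norm_nonneg _) e3 2
      rw [Real.norm_eq_abs, abs_le]
      constructor <;> nlinarith [sq_nonneg ‖d p.1 - d p.2‖]
    · simp
  rcases (norm_nonneg d).eq_or_lt with h | h
  · exact Or.inl h.symm
  · right
    rw [div_le_iff₀ (by positivity)]
    have : ‖d‖ * 1 ≤ ‖d‖ * (‖d‖ * (2 * K)) := by nlinarith
    exact le_of_mul_le_mul_left this h

/-- The linear map sending `u, v, u × v` to `u', v', u' × v'`. -/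
noncomputable def pinMap (u v u' v' : E3) : E3 →ₗ[ℝ] E3 where
  toFun x := (⟪cross u v, cross u v⟫)⁻¹ • (det3 x v (cross u v) • u' + det3 u x (cross u v) • v' +
    det3 u v x • cross u' v')
  map_add' x y := by
    apply ext3 <;> simp only [det3, PiLp.smul_apply, PiLp.add_apply, smul_eq_mul] <;> ring
  map_smul' r x := by
    apply ext3 <;> simp only [det3, PiLp.smul_apply, PiLp.add_apply, smul_eq_mul,
      RingHom.id_apply] <;> ring

lemma pinMap_apply (u v u' v' x : E3) : pinMap u v u' v' x =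
    (⟪cross u v, cross u v⟫)⁻¹ • (det3 x v (cross u v) • u' + det3 u x (cross u v) • v' +
      det3 u v x • cross u' v') := rfl

lemma pinMap_self {u v : E3} (h : cross u v ≠ 0) (x : E3) : pinMap u v u v x = x := by
  rw [pinMap_apply, ← cramer3, smul_smul, inv_mul_cancel₀ (inner_self_pos' h).ne', one_smul]

lemma pinMap_left {u v : E3} (h : cross u v ≠ 0) (u' v' : E3) : pinMap u v u' v' u = u' := by
  rw [pinMap_apply, det3_self12, det3_self13, ← inner_cross, zero_smul, zero_smul, add_zero,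
    add_zero, smul_smul, inv_mul_cancel₀ (inner_self_pos' h).ne', one_smul]

lemma pinMap_right {u v : E3} (h : cross u v ≠ 0) (u' v' : E3) : pinMap u v u' v' v = v' := by
  rw [pinMap_apply, det3_self12, det3_self23, ← inner_cross, zero_smul, zero_smul, add_zero,
    zero_add, smul_smul, inv_mul_cancel₀ (inner_self_pos' h).ne', one_smul]

lemma gram (u v : E3) (a b c : ℝ) :
    ⟪a • u + b • v + c • cross u v, a • u + b • v + c • cross u v⟫ =
      a ^ 2 * ⟪u, u⟫ + 2 * a * b * ⟪u, v⟫ + b ^ 2 * ⟪v, v⟫ +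
        c ^ 2 * (⟪u, u⟫ * ⟪v, v⟫ - ⟪u, v⟫ ^ 2) := by
  simp only [inner3, PiLp.smul_apply, PiLp.add_apply, smul_eq_mul, cross_0, cross_1, cross_2]
  ring

lemma pinMap_norm {u v u' v' : E3} (h : cross u v ≠ 0) (h1 : ⟪u', u'⟫ = ⟪u, u⟫)
    (h2 : ⟪u', v'⟫ = ⟪u, v⟫) (h3 : ⟪v', v'⟫ = ⟪v, v⟫) (x : E3) : ‖pinMap u v u' v' x‖ = ‖x‖ := by
  nth_rewrite 2 [← pinMap_self h x]
  rw [pinMap_apply, pinMap_apply, norm_smul, norm_smul]
  congr 1
  rw [← sq_eq_sq₀ (norm_nonneg _) (norm_nonneg _), ← real_inner_self_eq_norm_sq,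
    ← real_inner_self_eq_norm_sq, gram, gram, h1, h2, h3]

lemma continuous_cross {T : Type*} [TopologicalSpace T] {f g : T → E3} (hf : Continuous f)
    (hg : Continuous g) : Continuous fun t => cross (f t) (g t) := by
  unfold cross
  refine (PiLp.continuous_toLp 2 _).comp (continuous_pi fun i => ?_)
  fin_cases i <;> simp <;> fun_prop

/-- A continuous motion of the vertices that is isometric on each facet is a rigid motion. -/
theorem motion_rigid {V : Finset E3} (hV : Good V) (q : unitInterval → E3 → E3)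
    (hq0 : ∀ x ∈ V, q 0 x = x) (hqc : ∀ x ∈ V, Continuous fun t => q t x)
    (hq : ∀ t F, FaceDim (convexHull ℝ (V : Set E3)) 2 F →
      ∃ g : E3 ≃ᵃⁱ[ℝ] E3, ∀ x ∈ V, x ∈ F → q t x = g x) (t : unitInterval) :
    ∃ g : E3 ≃ᵃⁱ[ℝ] E3, ∀ x ∈ V, q t x = g x := by
  obtain ⟨v, hv, -⟩ := hV.exists_ne 0
  obtain ⟨w, hw, -⟩ := hV.not_two hv 0 0
  have hF0 := hw.face hV
  obtain ⟨-, a, b, c, -, ha, hb, hc, haF, hbF, hcF, hcr, -⟩ := facet_data hV hF0
  obtain ⟨K, hK, hgap⟩ := rigid_gap hV ⟨a, ha⟩ ⟨b, hb⟩ ⟨c, hc⟩ hcr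
  have hiso : ∀ s x, ‖pinMap (b - a) (c - a) (q s b - q s a) (q s c - q s a) x‖ = ‖x‖ := by
    intro s x
    obtain ⟨g, hg⟩ := hq s _ hF0
    have e : ∀ y z : E3, g y - g z = g.linearIsometryEquiv (y - z) := fun y z =>
      (g.map_vsub y z).symm
    apply pinMap_norm hcr <;>
      simp only [hg a ha haF, hg b hb hbF, hg c hc hcF, e, LinearIsometryEquiv.inner_map_map]
  let A : unitInterval → E3 ≃ₗᵢ[ℝ] E3 := fun s =>
    LinearIsometry.toLinearIsometryEquiv
      ⟨pinMap (b - a) (c - a) (q s b - q s a) (q s c - q s a), hiso s⟩ rfl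
  have hA : ∀ s x, A s x = pinMap (b - a) (c - a) (q s b - q s a) (q s c - q s a) x :=
    fun s x => rfl
  let r : unitInterval → V → E3 := fun s x => q s x - q s a - A s (x - a)
  let d : unitInterval → V → E3 := fun s x => (A s).symm (r s x)
  have hnorm : ∀ s, ‖d s‖ = ‖r s‖ := fun s => by
    apply le_antisymm <;> rw [pi_norm_le_iff_of_nonneg (norm_nonneg _)] <;> intro x
    · simp only [d, LinearIsometryEquiv.norm_map]; exact norm_le_pi_norm _ x
    · have := norm_le_pi_norm (d s) x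
      simpa only [d, LinearIsometryEquiv.norm_map] using this
  have hcont : Continuous fun s => ‖r s‖ := by
    refine continuous_norm.comp (continuous_pi fun x => ?_)
    have c1 := hqc x x.2
    have c2 := hqc a ha
    have c3 := hqc b hb
    have c4 := hqc c hc
    have c5 := continuous_cross (c3.sub c2) (c4.sub c2)
    simp only [r, hA, pinMap_apply]
    fun_prop
  have hr0 : ‖r 0‖ = 0 := by
    rw [norm_eq_zero]
    ext x : 1
    simp only [r, hA, hq0 a ha, hq0 b hb, hq0 c hc, hq0 x x.2, pinMap_self hcr, sub_self,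
      Pi.zero_apply]
  have hdich : ∀ s, ‖r s‖ = 0 ∨ K ≤ ‖r s‖ := fun s => by
    rw [← hnorm]
    refine hgap (d s) (by simp [d, r]) ?_ ?_ fun F hF => ?_
    · simp only [d, r, hA, pinMap_left hcr, sub_self, map_zero]
    · simp only [d, r, hA, pinMap_right hcr, sub_self, map_zero]
    · obtain ⟨g, hg⟩ := hq s F hF
      have e : ∀ y z : E3, g y - g z = g.linearIsometryEquiv (y - z) := fun y z =>
        (g.map_vsub y z).symm
      refine ⟨((A s).symm.toLinearEquiv.toLinearMap ∘ₗ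
        g.linearIsometryEquiv.toLinearEquiv.toLinearMap) - LinearMap.id, fun x y hx hy => ?_⟩
      have key : d s x - d s y =
          (A s).symm (g.linearIsometryEquiv (x.1 - y.1)) - (x.1 - y.1) := by
        simp only [d, r]
        rw [← e, ← hg x x.2 hx, ← hg y y.2 hy]
        simp only [map_sub, LinearIsometryEquiv.symm_apply_apply]
        abel
      refine ⟨by rw [key]; rfl, ?_⟩
      rw [key, add_sub_cancel, LinearIsometryEquiv.norm_map, LinearIsometryEquiv.norm_map]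
  have hzero : ‖r t‖ = 0 := by
    rcases hdich t with h | h
    · exact h
    · obtain ⟨s, hs⟩ := intermediate_value_univ 0 t hcont
        (show K / 2 ∈ Set.Icc ‖r 0‖ ‖r t‖ from ⟨by rw [hr0]; linarith, by linarith⟩)
      simp only at hs
      rcases hdich s with h' | h' <;> linarith
  refine ⟨AffineIsometryEquiv.mk' (fun x => A t (x - a) + q t a) (A t) a (fun x => by simp),
    fun x hx => ?_⟩
  have := congrFun (norm_eq_zero.1 hzero) ⟨x, hx⟩
  simp only [r, Pi.zero_apply] at this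
  rw [AffineIsometryEquiv.coe_mk']
  rw [sub_sub, sub_eq_zero] at this
  rw [this, add_comm]

end Pool.Agent.Lib.MP_e0197a_co
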