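import Mathlib
import Pool.Agent.Lib.MP_e0197a_co.Local

set_option autoImplicit false

namespace Pool.Agent.Lib.MP_e0197a_co

open Finset RealInnerProductSpace

lemma segment_ne {V : Finset E3} {v a b : E3} (ha : Adj V v a) (hb : Adj V v b) (hab : a ≠ b) :
    segment ℝ v a ≠ segment ℝ v b := by
  intro h
  have : a ∈ segment ℝ v b := h ▸ right_mem_segment ℝ v a
  obtain ⟨s, t, -, -, hst, e⟩ := this
  apply two_indep ha hb hab
  have : a - v = t • (b - v) := by rw [← e, show s = 1 - t by linarith]; module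
  rw [this]; apply ext3 <;> simp <;> ring

/-- All panels through a vertex keep that vertex in common. -/
lemma vertex_common {V : Finset E3} (hV : Good V) (M : Set (Set E3))
    (hmatch : ∀ e ∈ M, ∀ e' ∈ M, e ≠ e' → ∀ v ∈ V, ¬ (v ∈ e ∧ v ∈ e'))
    (f : Set E3 → E3 → E3)
    (hhinge : ∀ e, FaceDim (convexHull ℝ (V : Set E3)) 1 e → e ∉ M → ∀ F G,
      FaceDim (convexHull ℝ (V : Set E3)) 2 F → FaceDim (convexHull ℝ (V : Set E3)) 2 G →
      e ⊆ F → e ⊆ G → ∀ x ∈ e, f F x = f G x)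
    {v : E3} (hv : v ∈ V) {F G : Set E3} (hF : FaceDim (convexHull ℝ (V : Set E3)) 2 F)
    (hG : FaceDim (convexHull ℝ (V : Set E3)) 2 G) (hvF : v ∈ F) (hvG : v ∈ G) :
    f F v = f G v := by
  obtain ⟨w1, hw1, hw1'⟩ : ∃ w1, Adj V v w1 ∧ ∀ w, Adj V v w → w ≠ w1 → segment ℝ v w ∉ M := by
    by_cases h : ∃ w, Adj V v w ∧ segment ℝ v w ∈ M
    · obtain ⟨w1, h1, h2⟩ := h
      exact ⟨w1, h1, fun w hw hne hM => hmatch _ hM _ h2 (segment_ne hw h1 hne) v hv
        ⟨left_mem_segment ℝ _ _, left_mem_segment ℝ _ _⟩⟩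
    · obtain ⟨w1, h1, -⟩ := hV.not_two hv 0 0
      exact ⟨w1, h1, fun w hw _ hM => h ⟨w, hw, hM⟩⟩
  obtain ⟨k, c, hs, rfl⟩ := hV.star hw1
  have hall : ∀ i ≤ k, f (Lf V v (c i)) v = f (Lf V v (c 0)) v := by
    intro i
    induction i with
    | zero => intro _; rfl
    | succ i ih =>
      intro hi
      have ha := hs.adj (i + 1) hi
      rw [← ih (by omega), ← hs.Lf_succ hV hi]
      refine hhinge _ ha.edge (hw1' _ ha (hs.inj 0 (i + 1) (by omega) hi).symm) _ _ (ha.face hV)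
        (ha.symm.face hV) ?_ ?_ v (left_mem_segment ℝ _ _)
      · exact ((ha.face hV).1.convex (convex_convexHull ℝ _)).segment_subset
          (ha.mem_Lf hV).1 (ha.mem_Lf hV).2
      · exact ((ha.symm.face hV).1.convex (convex_convexHull ℝ _)).segment_subset
          (ha.symm.mem_Lf hV).2 (ha.symm.mem_Lf hV).1
  obtain ⟨i, hi, rfl⟩ := facet_at_vertex hV hF hvF hs
  obtain ⟨j, hj, rfl⟩ := facet_at_vertex hV hG hvG hs
  rw [hall i hi, hall j hj]

lemma eq_on_hull (g h : E3 ≃ᵃⁱ[ℝ] E3) (S : Set E3) (hS : ∀ x ∈ S, g x = h x) :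
    ∀ x ∈ convexHull ℝ S, g x = h x := fun x hx =>
  AffineMap.eqOn_affineSpan (f := g.toAffineEquiv.toAffineMap) (g := h.toAffineEquiv.toAffineMap)
    hS (convexHull_subset_affineSpan S hx)

theorem rigid_good {V : Finset E3} (hV : Good V) (M : Set (Set E3))
    (hmatch : ∀ e ∈ M, ∀ e' ∈ M, e ≠ e' → ∀ v ∈ V, ¬ (v ∈ e ∧ v ∈ e'))
    (φ : Set E3 → unitInterval → E3 ≃ᵢ E3)
    (hstart : ∀ F, FaceDim (convexHull ℝ (V : Set E3)) 2 F → ∀ x ∈ F, φ F 0 x = x)
    (hcont : ∀ F, FaceDim (convexHull ℝ (V : Set E3)) 2 F → ∀ x ∈ F, Continuous fun t => φ F t x)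
    (hhinge : ∀ e, FaceDim (convexHull ℝ (V : Set E3)) 1 e → e ∉ M → ∀ F G,
      FaceDim (convexHull ℝ (V : Set E3)) 2 F → FaceDim (convexHull ℝ (V : Set E3)) 2 G →
      e ⊆ F → e ⊆ G → ∀ t, ∀ x ∈ e, φ F t x = φ G t x) (t : unitInterval) :
    ∃ ψ : E3 ≃ᵢ E3, ∀ F, FaceDim (convexHull ℝ (V : Set E3)) 2 F → ∀ x ∈ F, φ F t x = ψ x := by
  have hnb : ∀ v ∈ V, ∃ F, FaceDim (convexHull ℝ (V : Set E3)) 2 F ∧ v ∈ F := fun v hv => by
    obtain ⟨w, hw, -⟩ := hV.not_two hv 0 0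
    exact ⟨_, hw.face hV, (hw.mem_Lf hV).1⟩
  choose! Fv hFv using hnb
  have hq : ∀ s F, FaceDim (convexHull ℝ (V : Set E3)) 2 F → ∀ x ∈ V, x ∈ F →
      φ (Fv x) s x = φ F s x := fun s F hF x hx hxF =>
    vertex_common hV M hmatch (fun F x => φ F s x)
      (fun e he heM F G hF hG h1 h2 => hhinge e he heM F G hF hG h1 h2 s) hx (hFv x hx).1 hF
      (hFv x hx).2 hxF
  obtain ⟨g, hg⟩ := motion_rigid hV (fun s x => φ (Fv x) s x)
    (fun x hx => hstart _ (hFv x hx).1 x (hFv x hx).2)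
    (fun x hx => hcont _ (hFv x hx).1 x (hFv x hx).2)
    (fun s F hF => ⟨(φ F s).toRealAffineIsometryEquiv, fun x hx hxF => hq s F hF x hx hxF⟩) t
  refine ⟨g.toIsometryEquiv, fun F hF x hx => ?_⟩
  rw [face_hull hF.1] at hx
  exact eq_on_hull (φ F t).toRealAffineIsometryEquiv g _
    (fun y hy => (hq t F hF y hy.1 hy.2).symm.trans (hg y hy.1)) x hx

lemma exists_good (V : Finset E3) (hint : (interior (convexHull ℝ (V : Set E3))).Nonempty) :
    ∃ U : Finset E3, Good U ∧ (U : Set E3) = (convexHull ℝ (V : Set E3)).extremePoints ℝ ∧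
      convexHull ℝ (U : Set E3) = convexHull ℝ (V : Set E3) := by
  classical
  have hU : ((V.filter fun x => x ∈ (convexHull ℝ (V : Set E3)).extremePoints ℝ : Finset E3) :
      Set E3) = (convexHull ℝ (V : Set E3)).extremePoints ℝ := by
    ext x
    simp only [coe_filter, Set.mem_ofPred_eq]
    exact ⟨fun h => h.2, fun h => ⟨extremePoints_convexHull_subset h, h⟩⟩
  set U := V.filter fun x => x ∈ (convexHull ℝ (V : Set E3)).extremePoints ℝ with hUdef
  have hhull : convexHull ℝ (U : Set E3) = convexHull ℝ (V : Set E3) := by rw [hU, hull_extreme]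
  refine ⟨U, ⟨fun v hv T hT hvT => extreme_not_mem V (mem_filter.1 hv).2 T
    (hT.trans (coe_subset.2 (filter_subset _ _))) hvT, fun n hn => ?_⟩, hU, hhull⟩
  have htop : affineSpan ℝ (U : Set E3) = ⊤ := by
    rw [← interior_convexHull_nonempty_iff_affineSpan_eq_top, hhull]; exact hint
  have hvs : vectorSpan ℝ (U : Set E3) = ⊤ := by
    rw [← direction_affineSpan, htop, AffineSubspace.direction_top]
  have hle : vectorSpan ℝ (U : Set E3) ≤ LinearMap.ker (innerSL ℝ n).toLinearMap := by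
    rw [vectorSpan_def, Submodule.span_le]
    rintro u ⟨y, hy, z, hz, rfl⟩
    exact hn y hy z hz
  have : n ∈ LinearMap.ker (innerSL ℝ n).toLinearMap := hle (hvs ▸ Submodule.mem_top)
  exact inner_self_eq_zero.1 this

end Pool.Agent.Lib.MP_e0197a_co
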